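import Pool.Agent.Lib.Wols.GainA

/-!
# GainB: the sum of the exponents over all primes is at least `4.86 n^2`

PROOF. `n` large, `5n ≤ 8b ≤ 5n + 24`, `B = 2b + 4n` (about `21n/4`), `m0 = (4n + 2b)/9 + 1` (about `7n/12`; so
`n/2 < m0 < n < 2b < B`). For a prime `q ∈ (n/2, B + 1)`, `q` odd, `K = (q-1)/2`:
(1) `2b < q ≤ B`: `b ≤ K`, `R = K - b`, `n - q = 0`: `cp = 2n + b - K ≥ (B + 1 - q)/2 - ...`, precisely
`cp ≥ (B - q)/2` (real numbers);
(2) `n < q ≤ 2b`: `R = b - K`, `cp = 2n - b + K ≥ (4n - 2b - 1 + q)/2`;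
(3) `m0 < q ≤ n`: `R = b - K`, `cp = 2n - b + K - 4(n - q) ≥ (9q - 4n - 2b - 1)/2` (natural subtractions are exact
because the result is `≥ 0`); drop the other `q ≤ m0` (`cp ≥ 0`).
So the sum is at least (`T0`, `T1` of `GainA`)
`(B/2)(T0 B - T0 (2b)) - (1/2)(T1 B - T1 (2b)) + ((4n-2b-1)/2)(T0 (2b) - T0 n) + (1/2)(T1 (2b) - T1 n)
 + (9/2)(T1 n - T1 m0) - ((4n+2b+1)/2)(T0 n - T0 m0)`.
With `T0 v = v + O(ε v)`, `T1 v = v^2/2 + O(ε v^2)` and `b = 5n/8 + O(1)`, `B = 21n/4 + O(1)`, `m0 = 7n/12 + O(1)`: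
first part `(B - 2b)^2/4 = 4 n^2`; second `(11/8)(1/4) n^2 + (1/4)(25/16 - 1) n^2 = (31/64) n^2`; third
`(9/4) (1 - 7/12)^2 n^2 = (25/64) n^2`; total `4.875 n^2` up to `O(ε n^2) + O(n)`; the constant in `O(ε n^2)` is at
most `(21/8)(21/4 + 5/4) + (1/2)((21/4)^2 + (5/4)^2) + ... ≤ 60`, so `ε = 0.0001` is enough.
-/

set_option autoImplicit false

open Finset

namespace Wols

private theorem GainB_split (f : ℕ → ℝ) {u v w : ℕ} (huv : u ≤ v) (hvw : v ≤ w) :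
    ∑ q ∈ (Ioc u w).filter Nat.Prime, f q =
      ∑ q ∈ (Ioc u v).filter Nat.Prime, f q + ∑ q ∈ (Ioc v w).filter Nat.Prime, f q := by
  rw [Finset.sum_filter, Finset.sum_filter, Finset.sum_filter,
    Finset.sum_Ioc_consecutive _ huv hvw]

private theorem GainB_seg (α β : ℝ) {u v : ℕ} (huv : u ≤ v) :
    ∑ q ∈ (Ioc u v).filter Nat.Prime, (α + β * (q : ℝ)) * Real.log q =
      α * (T0 v - T0 u) + β * (T1 v - T1 u) := by
  have h0 : T0 v - T0 u = ∑ q ∈ (Ioc u v).filter Nat.Prime, Real.log q := by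
    unfold T0
    rw [GainB_split (fun q : ℕ => Real.log q) (Nat.zero_le u) huv]
    ring
  have h1 : T1 v - T1 u = ∑ q ∈ (Ioc u v).filter Nat.Prime, (q : ℝ) * Real.log q := by
    unfold T1
    rw [GainB_split (fun q : ℕ => (q : ℝ) * Real.log q) (Nat.zero_le u) huv]
    ring
  rw [h0, h1, Finset.mul_sum, Finset.mul_sum, ← Finset.sum_add_distrib]
  refine Finset.sum_congr rfl fun q _ => ?_
  ring

private theorem GainB_low (n b : ℕ) (α β : ℝ) {u v : ℕ} (huv : u ≤ v)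
    (h : ∀ q : ℕ, q.Prime → u < q → q ≤ v → α + β * (q : ℝ) ≤ (cp n b q : ℝ)) :
    α * (T0 v - T0 u) + β * (T1 v - T1 u) ≤
      ∑ q ∈ (Ioc u v).filter Nat.Prime, (cp n b q : ℝ) * Real.log q := by
  rw [← GainB_seg α β huv]
  refine Finset.sum_le_sum fun q hq => ?_
  rw [Finset.mem_filter, Finset.mem_Ioc] at hq
  exact mul_le_mul_of_nonneg_right (h q hq.2 hq.1.1 hq.1.2)
    (Real.log_nonneg (by exact_mod_cast hq.2.one_lt.le))

private theorem GainB_poly (n d e : ℝ) (hn : 10000 ≤ n) (hd : 0 ≤ d) (hd' : d ≤ 3)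
    (he : 0 ≤ e) (he' : e ≤ 5 / 3) :
    4.86 * n ^ 2 ≤
      (2 * (5 * n / 8 + d) + 4 * n) / 2 * (4 * n) - (2 * (5 * n / 8 + d) + 4 * n) ^ 2 / 4 +
      (4 * n - 2 * (5 * n / 8 + d) - 1) / 2 * (2 * (5 * n / 8 + d) - n) +
      (2 * (5 * n / 8 + d)) ^ 2 / 2 + 2 * n ^ 2 - 9 / 4 * (7 * n / 12 + e) ^ 2 -
      (4 * n + 2 * (5 * n / 8 + d) + 1) / 2 * (n - (7 * n / 12 + e)) -
      1 / 10000 * ((2 * (5 * n / 8 + d) + 4 * n) / 2 *
          ((2 * (5 * n / 8 + d) + 4 * n) + 2 * (5 * n / 8 + d)) +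
        (2 * (5 * n / 8 + d) + 4 * n) ^ 2 / 2 +
        (4 * n - 2 * (5 * n / 8 + d) - 1) / 2 * (2 * (5 * n / 8 + d) + n) +
        (2 * (5 * n / 8 + d)) ^ 2 + 4 * n ^ 2 + 9 / 2 * (7 * n / 12 + e) ^ 2 +
        (4 * n + 2 * (5 * n / 8 + d) + 1) / 2 * (n + (7 * n / 12 + e))) := by
  have h1 : 0 ≤ n * (n - 10000) := mul_nonneg (by linarith) (by linarith)
  have h2 : 0 ≤ n * d := mul_nonneg (by linarith) hd
  have h3 : 0 ≤ n * (3 - d) := mul_nonneg (by linarith) (by linarith)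
  have h4 : 0 ≤ n * e := mul_nonneg (by linarith) he
  have h5 : 0 ≤ n * (5 / 3 - e) := mul_nonneg (by linarith) (by linarith)
  have h6 : 0 ≤ d * (3 - d) := mul_nonneg hd (by linarith)
  have h7 : 0 ≤ e * (5 / 3 - e) := mul_nonneg he (by linarith)
  have h8 : 0 ≤ d * e := mul_nonneg hd he
  have h9 : 0 ≤ d * (5 / 3 - e) := mul_nonneg hd (by linarith)
  have h10 : 0 ≤ d ^ 2 := sq_nonneg d
  have h11 : 0 ≤ e ^ 2 := sq_nonneg e
  linarith [h1, h2, h3, h4, h5, h6, h7, h8, h9, h10, h11]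

private theorem GainB_num (n b m tB tx tn tm sB sx sn sm : ℝ) (hn : 10000 ≤ n)
    (h1 : 5 * n ≤ 8 * b) (h2 : 8 * b ≤ 5 * n + 24)
    (h3 : 4 * n + 2 * b ≤ 9 * m) (h4 : 9 * m ≤ 4 * n + 2 * b + 9)
    (htB : |tB - (2 * b + 4 * n)| ≤ 1 / 10000 * (2 * b + 4 * n))
    (htx : |tx - 2 * b| ≤ 1 / 10000 * (2 * b))
    (htn : |tn - n| ≤ 1 / 10000 * n) (htm : |tm - m| ≤ 1 / 10000 * m)
    (hsB : |sB - (2 * b + 4 * n) ^ 2 / 2| ≤ 1 / 10000 * (2 * b + 4 * n) ^ 2)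
    (hsx : |sx - (2 * b) ^ 2 / 2| ≤ 1 / 10000 * (2 * b) ^ 2)
    (hsn : |sn - n ^ 2 / 2| ≤ 1 / 10000 * n ^ 2)
    (hsm : |sm - m ^ 2 / 2| ≤ 1 / 10000 * m ^ 2) :
    4.86 * n ^ 2 ≤
      ((-(4 * n + 2 * b + 1) / 2) * (tn - tm) + 9 / 2 * (sn - sm)) +
      (((4 * n - 2 * b - 1) / 2 * (tx - tn) + 1 / 2 * (sx - sn)) +
      ((2 * b + 4 * n) / 2 * (tB - tx) + (-1 / 2) * (sB - sx))) := by
  rw [abs_le] at htB htx htn htm hsB hsx hsn hsm
  have hp := GainB_poly n (b - 5 * n / 8) (m - 7 * n / 12) hn (by linarith) (by linarith)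
    (by linarith) (by linarith)
  rw [show 5 * n / 8 + (b - 5 * n / 8) = b by ring,
    show 7 * n / 12 + (m - 7 * n / 12) = m by ring] at hp
  have p1 : 0 ≤ (2 * b + 4 * n) / 2 * ((tB - tx) -
      (4 * n - 1 / 10000 * ((2 * b + 4 * n) + 2 * b))) :=
    mul_nonneg (by linarith) (by linarith [htB.1, htx.2])
  have p2 : 0 ≤ (4 * n - 2 * b - 1) / 2 * ((tx - tn) -
      (2 * b - n - 1 / 10000 * (2 * b + n))) :=
    mul_nonneg (by linarith) (by linarith [htx.1, htn.2])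
  have p3 : 0 ≤ (4 * n + 2 * b + 1) / 2 * ((n - m + 1 / 10000 * (n + m)) - (tn - tm)) :=
    mul_nonneg (by linarith) (by linarith [htn.2, htm.1])
  linarith [hsB.2, hsx.1, hsn.1, hsm.2]

theorem gain : ∃ n0 : ℕ, ∀ n, n0 ≤ n → ∀ b, 5 * n ≤ 8 * b → 8 * b ≤ 5 * n + 24 →
    4.86 * (n : ℝ) ^ 2 ≤
      ∑ q ∈ (Ioo (n / 2) (2 * b + 4 * n + 1)).filter Nat.Prime, (cp n b q : ℝ) * Real.log q := by
  obtain ⟨v0, h0⟩ := theta_near (1 / 10000) (by norm_num)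
  obtain ⟨v1, h1⟩ := sum_near (1 / 10000) (by norm_num)
  refine ⟨2 * (v0 + v1) + 10000, fun n hn b hb1 hb2 => ?_⟩
  obtain ⟨m, hm⟩ : ∃ m : ℕ, m = (4 * n + 2 * b) / 9 + 1 := ⟨_, rfl⟩
  have hm1 : 4 * n + 2 * b ≤ 9 * m := by omega
  have hm2 : 9 * m ≤ 4 * n + 2 * b + 9 := by omega
  have hmn : m ≤ n := by omega
  have hnx : n ≤ 2 * b := by omega
  have hxB : 2 * b ≤ 2 * b + 4 * n := by omega
  have hm3 : n / 2 ≤ m := by omega
  -- the sum over the larger range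
  have hsub : (Ioc m (2 * b + 4 * n)).filter Nat.Prime ⊆
      (Ioo (n / 2) (2 * b + 4 * n + 1)).filter Nat.Prime := by
    refine Finset.filter_subset_filter _ fun q hq => ?_
    rw [Finset.mem_Ioc] at hq
    rw [Finset.mem_Ioo]
    omega
  have hbig : ∑ q ∈ (Ioc m (2 * b + 4 * n)).filter Nat.Prime, (cp n b q : ℝ) * Real.log q ≤
      ∑ q ∈ (Ioo (n / 2) (2 * b + 4 * n + 1)).filter Nat.Prime,
        (cp n b q : ℝ) * Real.log q := by
    refine Finset.sum_le_sum_of_subset_of_nonneg hsub fun q hq _ => ?_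
    rw [Finset.mem_filter] at hq
    exact mul_nonneg (Nat.cast_nonneg _)
      (Real.log_nonneg (by exact_mod_cast hq.2.one_lt.le))
  rw [GainB_split _ hmn (by omega : n ≤ 2 * b + 4 * n), GainB_split _ hnx hxB] at hbig
  -- the three parts
  have a3 := GainB_low n b (-(4 * (n : ℝ) + 2 * b + 1) / 2) (9 / 2) hmn (by
    intro q hq h3 h4
    have hodd : q % 2 = 1 := hq.eq_two_or_odd.resolve_left (by omega)
    have h5 : 9 * q ≤ 2 * cp n b q + (4 * n + 2 * b + 1) := by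
      unfold cp R
      omega
    have h6 : 9 * (q : ℝ) ≤ 2 * (cp n b q : ℝ) + (4 * n + 2 * b + 1) := by exact_mod_cast h5
    linarith)
  have a2 := GainB_low n b ((4 * (n : ℝ) - 2 * b - 1) / 2) (1 / 2) hnx (by
    intro q hq h3 h4
    have hodd : q % 2 = 1 := hq.eq_two_or_odd.resolve_left (by omega)
    have h5 : 4 * n + q ≤ 2 * cp n b q + (2 * b + 1) := by
      unfold cp R
      omega
    have h6 : 4 * (n : ℝ) + q ≤ 2 * (cp n b q : ℝ) + (2 * b + 1) := by exact_mod_cast h5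
    linarith)
  have a1 := GainB_low n b ((2 * (b : ℝ) + 4 * n) / 2) (-1 / 2) hxB (by
    intro q hq h3 h4
    have hodd : q % 2 = 1 := hq.eq_two_or_odd.resolve_left (by omega)
    have h5 : 2 * b + 4 * n ≤ 2 * cp n b q + q := by
      unfold cp R
      omega
    have h6 : 2 * (b : ℝ) + 4 * n ≤ 2 * (cp n b q : ℝ) + q := by exact_mod_cast h5
    linarith)
  have hfin := GainB_num n b m (T0 (2 * b + 4 * n)) (T0 (2 * b)) (T0 n) (T0 m)
    (T1 (2 * b + 4 * n)) (T1 (2 * b)) (T1 n) (T1 m)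
    (by exact_mod_cast (by omega : 10000 ≤ n)) (by exact_mod_cast hb1) (by exact_mod_cast hb2)
    (by exact_mod_cast hm1) (by exact_mod_cast hm2)
    (by have h := h0 (2 * b + 4 * n) (by omega); push_cast at h; exact h)
    (by have h := h0 (2 * b) (by omega); push_cast at h; exact h)
    (h0 n (by omega)) (h0 m (by omega))
    (by have h := h1 (2 * b + 4 * n) (by omega); push_cast at h; exact h)
    (by have h := h1 (2 * b) (by omega); push_cast at h; exact h)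
    (h1 n (by omega)) (h1 m (by omega))
  linarith [hfin, hbig, a1, a2, a3]

end Wols
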