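import Pool.Agent.Lib.Wols.Size
import Pool.Agent.Lib.PNT.Theta

/-!
# SizeLog: `log |det A| ≤ 4.73 n^2`

PROOF. By `det_le`, with `k = |c| + |d| + 1`:
`log |det A| ≤ log (2n)! + 2n log (200 n) + 4n log k + 2 ∑_x log S_x`
`≤ 2n log(2n) + 2n log(200 n) + 0.02 n^2 + 6 ∑_{i<n} log s_i`
(`∑_x log S_x = ∑_i log s_i + ∑_i 2 log s_i`), if `det A ≠ 0`; if it is `0` the left side is `0`.
`log s_i = ψ(mx n b i)` (`Chebyshev.psi_eq_log_lcmUpto`) `≤ 1.001 mx n b i` for large `n`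
(`PNT.psi_tendsto`; `mx n b i ≥ max(i, n-1-i) ≥ (n-1)/2`). And `∑_{i<n} mx n b i ≤ 0.78125 n^2 + O(n)`:
`5n/8 ≤ b ≤ 5n/8 + 3`, so `mx n b i ≤ max(i, n-i, 5n/4 + 6 - 2i)`, which is `≤ 5n/4 - 2i + 6` for `i ≤ n/4`, `≤ n - i + 6`
for `n/4 ≤ i ≤ n/2`, `≤ i + 6` for `i ≥ n/2`; so the sum is at most
`n^2 (1/4 + 5/32 + 3/8) + O(n) = (25/32) n^2 + O(n)`, `25/32 = 0.78125`.
Total `6 · 1.001 · 0.78125 = 4.6922`, `+ 0.02`, `< 4.73`, and `O(n log n)` terms. (Compare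
`Lib/Wief/SzLog.lean`.)
-/

set_option autoImplicit false

open Finset

namespace Wols

private theorem SizeLog_lin (A B : ℝ) (m : ℕ) :
    ∑ j ∈ range m, (A + B * (j : ℝ)) = A * m + B * ((m : ℝ) * (m - 1) / 2) := by
  induction m with
  | zero => simp
  | succ m ih =>
    rw [Finset.sum_range_succ, ih]
    push_cast
    ring

private theorem SizeLog_mx_sum {n b : ℕ} (hn : 10 ≤ n) (hb : 8 * b ≤ 5 * n + 24) :
    ∑ i ∈ range n, (mx n b i : ℝ) ≤ 25 / 32 * (n : ℝ) ^ 2 + 8 * n := by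
  obtain ⟨a, ha⟩ : ∃ a, a = n / 4 := ⟨_, rfl⟩
  obtain ⟨u, hu⟩ : ∃ u, u = n / 2 - n / 4 := ⟨_, rfl⟩
  obtain ⟨v, hv⟩ : ∃ v, v = n - n / 2 := ⟨_, rfl⟩
  have hsum : n = a + u + v := by omega
  have e1 : ∑ i ∈ range n, (mx n b i : ℝ) = ∑ i ∈ range a, (mx n b i : ℝ) +
      ∑ j ∈ range u, (mx n b (a + j) : ℝ) + ∑ j ∈ range v, (mx n b (a + u + j) : ℝ) := by
    rw [← Finset.sum_range_add, ← Finset.sum_range_add, ← hsum]
  have hnR : (n : ℝ) = a + u + v := by exact_mod_cast hsum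
  have b1 : ∑ i ∈ range a, (mx n b i : ℝ) ≤
      ∑ i ∈ range a, ((5 / 4 * (n : ℝ) + 7) + (-2) * (i : ℝ)) := by
    refine Finset.sum_le_sum fun i hi => ?_
    have hi' := Finset.mem_range.1 hi
    have h1 : 4 * mx n b i + 8 * i ≤ 5 * n + 28 := by
      unfold mx
      omega
    have h2 : (4 : ℝ) * (mx n b i : ℝ) + 8 * (i : ℝ) ≤ 5 * (n : ℝ) + 28 := by exact_mod_cast h1
    linarith
  have b2 : ∑ j ∈ range u, (mx n b (a + j) : ℝ) ≤
      ∑ j ∈ range u, (((n : ℝ) - a + 7) + (-1) * (j : ℝ)) := by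
    refine Finset.sum_le_sum fun j hj => ?_
    have hj' := Finset.mem_range.1 hj
    have h1 : mx n b (a + j) + (a + j) ≤ n + 7 := by
      unfold mx
      omega
    have h2 : (mx n b (a + j) : ℝ) + ((a : ℝ) + (j : ℝ)) ≤ (n : ℝ) + 7 := by exact_mod_cast h1
    linarith
  have b3 : ∑ j ∈ range v, (mx n b (a + u + j) : ℝ) ≤
      ∑ j ∈ range v, (((a : ℝ) + u + 7) + 1 * (j : ℝ)) := by
    refine Finset.sum_le_sum fun j hj => ?_
    have hj' := Finset.mem_range.1 hj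
    have h1 : mx n b (a + u + j) ≤ (a + u + j) + 7 := by
      unfold mx
      omega
    have h2 : (mx n b (a + u + j) : ℝ) ≤ ((a : ℝ) + (u : ℝ) + (j : ℝ)) + 7 := by exact_mod_cast h1
    linarith
  rw [SizeLog_lin] at b1 b2 b3
  rw [e1]
  have ha0 : (0 : ℝ) ≤ a := Nat.cast_nonneg a
  have hu0 : (0 : ℝ) ≤ u := Nat.cast_nonneg u
  have hv0 : (0 : ℝ) ≤ v := Nat.cast_nonneg v
  have k1 : (a : ℝ) ≤ n / 4 := by
    have : 4 * a ≤ n := by omega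
    have h2 : (4 : ℝ) * a ≤ n := by exact_mod_cast this
    linarith
  have k2 : (a : ℝ) + u ≤ n / 2 := by
    have : 2 * (a + u) ≤ n := by omega
    have h2 : (2 : ℝ) * (a + u) ≤ n := by exact_mod_cast this
    linarith
  have q1 : 0 ≤ ((a : ℝ) - n / 4) ^ 2 := sq_nonneg _
  have q2 : 0 ≤ ((a : ℝ) + u - n / 2) ^ 2 := sq_nonneg _
  have hv' : (v : ℝ) = n - a - u := by linarith
  rw [hv'] at b3
  have hn0 : (0 : ℝ) ≤ n := Nat.cast_nonneg n
  have hid : ((5 / 4 * (n : ℝ) + 7) * a + (-2) * ((a : ℝ) * (a - 1) / 2)) +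
      (((n : ℝ) - a + 7) * u + (-1) * ((u : ℝ) * (u - 1) / 2)) +
      (((a : ℝ) + u + 7) * ((n : ℝ) - a - u) + 1 * (((n : ℝ) - a - u) * ((n : ℝ) - a - u - 1) / 2)) =
      25 / 32 * (n : ℝ) ^ 2 + 7 * n + (a : ℝ) / 2 + ((a : ℝ) + u) - n / 2 -
      ((a : ℝ) - n / 4) ^ 2 / 2 - ((a : ℝ) + u - n / 2) ^ 2 := by
    ring
  linarith

private theorem SizeLog_sc_pos (n b i : ℕ) : (0 : ℝ) < (sc n b i : ℝ) := by
  unfold sc
  exact_mod_cast Nat.lcmUpto_pos _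

private theorem SizeLog_Sz_pos {n b : ℕ} (x : Ix n) : (0 : ℝ) < (Sz n b x : ℝ) := by
  rcases x with i | i
  · exact SizeLog_sc_pos n b i
  · show (0 : ℝ) < ((sc n b i ^ 2 : ℕ) : ℝ)
    have := SizeLog_sc_pos n b i
    push_cast
    positivity

private theorem SizeLog_prod {n1 : ℕ} (h1 : ∀ m : ℕ, n1 ≤ m → Chebyshev.psi m ≤ 1.001 * (m : ℝ))
    {n b : ℕ} (hn : 10 ≤ n) (hn1 : 2 * n1 + 1 ≤ n) (hb : 8 * b ≤ 5 * n + 24) :
    Real.log (∏ x : Ix n, (Sz n b x : ℝ)) ≤ 3 * (1.001 * (25 / 32 * (n : ℝ) ^ 2 + 8 * n)) := by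
  rw [Real.log_prod (fun x _ => (SizeLog_Sz_pos x).ne'), Fintype.sum_sum_type]
  have h2 : ∀ i : Fin n, Real.log (Sz n b (Sum.inr i) : ℝ) = 2 * Real.log (sc n b i : ℝ) := by
    intro i
    have h3 : ((Sz n b (Sum.inr i) : ℕ) : ℝ) = (sc n b i : ℝ) ^ 2 := by
      show (((sc n b i ^ 2 : ℕ)) : ℝ) = _
      push_cast
      rfl
    rw [h3, Real.log_pow]
    push_cast
    rfl
  have h3 : ∀ i : Fin n, Real.log (Sz n b (Sum.inl i) : ℝ) = Real.log (sc n b i : ℝ) := fun i => rfl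
  rw [Finset.sum_congr rfl fun i _ => h2 i, Finset.sum_congr rfl fun i _ => h3 i,
    ← Finset.mul_sum]
  have h4 : ∑ i : Fin n, Real.log (sc n b i : ℝ) ≤ 1.001 * (25 / 32 * (n : ℝ) ^ 2 + 8 * n) := by
    have h5 : ∀ i : Fin n, Real.log (sc n b i : ℝ) ≤ 1.001 * (mx n b i : ℝ) := by
      intro i
      unfold sc
      rw [← Chebyshev.psi_eq_log_lcmUpto]
      apply h1
      have hi := i.2
      unfold mx
      omega
    refine (Finset.sum_le_sum fun i _ => h5 i).trans ?_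
    rw [← Finset.mul_sum, Fin.sum_univ_eq_sum_range (fun i => (mx n b i : ℝ)) n]
    have := SizeLog_mx_sum hn hb
    linarith
  linarith

theorem log_det : ∃ n0 : ℕ, ∀ n, n0 ≤ n → ∀ b, 5 * n ≤ 8 * b → 8 * b ≤ 5 * n + 24 →
    ∀ c d : ℤ, Real.log ((|c| + |d| + 1 : ℤ) : ℝ) ≤ 0.005 * (n : ℝ) →
    Real.log |((A n b c d).det : ℝ)| ≤ 4.73 * (n : ℝ) ^ 2 := by
  have e1 : ∀ᶠ x : ℝ in Filter.atTop, Chebyshev.psi x / x < 1.001 :=
    PNT.psi_tendsto.eventually_lt_const (by norm_num)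
  obtain ⟨x1, hx1⟩ := Filter.eventually_atTop.1 e1
  have e2 : ∀ᶠ x : ℝ in Filter.atTop, ‖Real.log x‖ ≤ 0.001 * ‖id x‖ :=
    Real.isLittleO_log_id_atTop.bound (by norm_num)
  obtain ⟨x2, hx2⟩ := Filter.eventually_atTop.1 e2
  refine ⟨max (max (2 * (max ⌈x1⌉₊ 1) + 1) ⌈x2⌉₊) 100000, ?_⟩
  intro n hn b _ hb c d hk
  have hn1 : 2 * (max ⌈x1⌉₊ 1) + 1 ≤ n := ((le_max_left _ _).trans (le_max_left _ _)).trans hn
  have hn2 : ⌈x2⌉₊ ≤ n := ((le_max_right _ _).trans (le_max_left _ _)).trans hn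
  have hn3 : 100000 ≤ n := (le_max_right _ _).trans hn
  have h1 : ∀ m : ℕ, max ⌈x1⌉₊ 1 ≤ m → Chebyshev.psi m ≤ 1.001 * (m : ℝ) := by
    intro m hm
    have b1 : ⌈x1⌉₊ ≤ m := (le_max_left _ _).trans hm
    have b2 : 1 ≤ m := (le_max_right _ _).trans hm
    have b3 : x1 ≤ (m : ℝ) := (Nat.le_ceil x1).trans (by exact_mod_cast b1)
    have b4 := hx1 (m : ℝ) b3
    have b5 : (0 : ℝ) < m := by exact_mod_cast b2
    rw [div_lt_iff₀ b5] at b4
    exact b4.le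
  have hR : (100000 : ℝ) ≤ (n : ℝ) := by exact_mod_cast hn3
  have hR0 : (0 : ℝ) < n := by linarith
  have hlog : Real.log (n : ℝ) ≤ 0.001 * (n : ℝ) := by
    have c1 : x2 ≤ (n : ℝ) := (Nat.le_ceil x2).trans (by exact_mod_cast hn2)
    have c2 := hx2 _ c1
    have c3 : ‖id (n : ℝ)‖ = (n : ℝ) := by
      rw [id, Real.norm_eq_abs, abs_of_nonneg hR0.le]
    rw [c3] at c2
    exact (le_abs_self _).trans c2
  by_cases hD : (A n b c d).det = 0
  · rw [hD]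
    simp only [Int.cast_zero, abs_zero, Real.log_zero]
    positivity
  obtain ⟨k, hkdef⟩ : ∃ k : ℤ, k = |c| + |d| + 1 := ⟨_, rfl⟩
  rw [← hkdef] at hk
  have hk1 : (1 : ℤ) ≤ k := by
    have := abs_nonneg c
    have := abs_nonneg d
    omega
  have hkR : (0 : ℝ) < (k : ℝ) := by exact_mod_cast (by omega : (0 : ℤ) < k)
  have hdet := det_le (n := n) (b := b) c d (by omega)
  rw [← hkdef] at hdet
  have hdetR : |((A n b c d).det : ℝ)| ≤ ((2 * n).factorial : ℝ) *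
      (200 * (k : ℝ) ^ 2 * n) ^ (2 * n) * (∏ x : Ix n, (Sz n b x : ℝ)) ^ 2 := by
    exact_mod_cast hdet
  have hDpos : 0 < |((A n b c d).det : ℝ)| := by
    rw [abs_pos]
    exact_mod_cast hD
  have hPpos : 0 < ∏ x : Ix n, (Sz n b x : ℝ) := Finset.prod_pos fun x _ => SizeLog_Sz_pos x
  have hfpos : (0 : ℝ) < ((2 * n).factorial : ℝ) := by exact_mod_cast Nat.factorial_pos _
  have hBpos : (0 : ℝ) < 200 * (k : ℝ) ^ 2 * n := by positivity
  refine (Real.log_le_log hDpos hdetR).trans ?_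
  rw [Real.log_mul (mul_pos hfpos (pow_pos hBpos _)).ne' (pow_pos hPpos 2).ne',
    Real.log_mul hfpos.ne' (pow_pos hBpos _).ne', Real.log_pow, Real.log_pow,
    Real.log_mul (by positivity) hR0.ne', Real.log_mul (by norm_num) (by positivity),
    Real.log_pow]
  have hP := SizeLog_prod h1 (n := n) (b := b) (by omega) hn1 hb
  have hlog2n : Real.log (2 * (n : ℝ)) ≤ 1 + 0.001 * (n : ℝ) := by
    rw [Real.log_mul (by norm_num) hR0.ne']
    have := Real.log_le_sub_one_of_pos (show (0 : ℝ) < 2 by norm_num)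
    linarith
  have hfac : Real.log ((2 * n).factorial : ℝ) ≤ (2 * n : ℝ) * (1 + 0.001 * (n : ℝ)) := by
    have f1 : ((2 * n).factorial : ℝ) ≤ ((2 * n : ℕ) : ℝ) ^ (2 * n) := by
      exact_mod_cast Nat.factorial_le_pow (2 * n)
    refine (Real.log_le_log hfpos f1).trans ?_
    rw [Real.log_pow]
    push_cast
    exact mul_le_mul_of_nonneg_left hlog2n (by positivity)
  have h200 : Real.log 200 ≤ 199 := by
    have := Real.log_le_sub_one_of_pos (show (0 : ℝ) < 200 by norm_num)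
    linarith
  have hmid : ((2 * n : ℕ) : ℝ) * (Real.log 200 + ((2 : ℕ) : ℝ) * Real.log (k : ℝ) + Real.log (n : ℝ)) ≤
      (2 * n : ℝ) * (199 + 2 * (0.005 * (n : ℝ)) + 0.001 * (n : ℝ)) := by
    push_cast
    refine mul_le_mul_of_nonneg_left ?_ (by positivity)
    linarith
  have hfin : (2 * n : ℝ) * (1 + 0.001 * (n : ℝ)) +
      (2 * n : ℝ) * (199 + 2 * (0.005 * (n : ℝ)) + 0.001 * (n : ℝ)) +
      2 * (3 * (1.001 * (25 / 32 * (n : ℝ) ^ 2 + 8 * n))) ≤ 4.73 * (n : ℝ) ^ 2 := by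
    nlinarith
  push_cast at hmid hP ⊢
  linarith

end Wols
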