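import Pool.Agent.Lib.Wols.Dvd
import Pool.Agent.Lib.Wols.SizeLog
import Pool.Agent.Lib.Wols.GainB

/-!
# Below: many good primes below a bad prime

PROOF. (Compare `Lib/Wief/BelowW.lean`, same structure.) `div_log`: for bad primes `q ∈ (n/2, 2b+4n+1)`
(`2b < 3q` because `3q ≥ 3(n+1)/2 > 2b` for `8b ≤ 5n + 24`, `n` large) `q^(cp n b q) ∣ det A ≠ 0` (`det_dvd`); the
prime powers are pairwise coprime, so `∑_{q bad} cp n b q log q ≤ log |det A|`.
`below`: let `p ≥ 7` be a large bad prime. `d ≠ 0` mod `p`: otherwise `c = 0` mod `p` (`IsBad`), and `p` divides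
`gcd(c, d)`, which divides `2`. Let `n = 4(p-1)/21` (floor), `b = (p-1)/2 - 2n`; `21 n ≤ 4(p-1) < 21n + 21` gives
`5n ≤ 8b ≤ 5n + 21`, `n ≤ 2b`, `b ≤ n`, `(p-1)/2 = b + 2n`, `2b + 4n + 1 = p`:
`det A ≠ 0` (`det_ne_zero`). `0.0009 p ≤ 0.005 n`. `log_det`, `gain`, `div_log`: the sum of `cp n b q log q` over the
primes `q ∈ (n/2, p)` which are not bad is `≥ 0.13 n^2`; there `cp ≤ 2n`, `log q ≤ log p`: their number is
`≥ 0.065 n / log p ≥ p / (90 log p)` (`n ≥ 0.19 p`).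
-/

set_option autoImplicit false

open Finset

namespace Wols

open Classical in
private theorem Below_div_log {n b : ℕ} {c d : ℤ} (hn16 : 16 ≤ n) (hn : n ≤ 2 * b) (hb : b ≤ n)
    (hb' : 8 * b ≤ 5 * n + 24) (h0 : (A n b c d).det ≠ 0) :
    ∑ q ∈ (Ioo (n / 2) (2 * b + 4 * n + 1)).filter (IsBad c d), (cp n b q : ℝ) * Real.log q ≤
      Real.log |((A n b c d).det : ℝ)| := by
  set S := (Ioo (n / 2) (2 * b + 4 * n + 1)).filter (IsBad c d) with hS
  have hd : ∏ q ∈ S, ((q : ℤ) ^ cp n b q) ∣ (A n b c d).det := by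
    refine Finset.prod_dvd_of_coprime ?_ ?_
    · intro x hx y hy hxy
      have hx' := (mem_filter.1 (Finset.mem_coe.1 hx)).2
      have hy' := (mem_filter.1 (Finset.mem_coe.1 hy)).2
      exact IsCoprime.pow (Nat.isCoprime_iff_coprime.2 ((Nat.coprime_primes hx'.1 hy'.1).2 hxy))
    · intro q hq
      have hq' := mem_filter.1 hq
      have hq1 := (mem_Ioo.1 hq'.1).1
      exact det_dvd hq'.2 hn hb (by omega)
  have hpos : ∀ q ∈ S, (0 : ℝ) < (q : ℝ) := by
    intro q hq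
    exact_mod_cast (mem_filter.1 hq).2.1.pos
  have h1 : ∏ q ∈ S, ((q : ℤ) ^ cp n b q) ≤ |(A n b c d).det| :=
    Int.le_of_dvd (abs_pos.2 h0) ((dvd_abs _ _).2 hd)
  have h2 : ∏ q ∈ S, ((q : ℝ) ^ cp n b q) ≤ |((A n b c d).det : ℝ)| := by
    exact_mod_cast h1
  have h3 : Real.log (∏ q ∈ S, ((q : ℝ) ^ cp n b q)) =
      ∑ q ∈ S, (cp n b q : ℝ) * Real.log q := by
    rw [Real.log_prod (fun q hq => (pow_pos (hpos q hq) _).ne')]
    exact sum_congr rfl fun q _ => Real.log_pow _ _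
  rw [← h3]
  exact Real.log_le_log (prod_pos fun q hq => pow_pos (hpos q hq) _) h2

private theorem Below_ne {c d : ℤ} (hg : Int.gcd c d ∣ 2) {p : ℕ} (hw : IsBad c d p) :
    (d : ZMod p) ≠ 0 := by
  intro h
  have h1 := hw.2.2
  rw [h, zero_mul] at h1
  have hd : (p : ℤ) ∣ d := (ZMod.intCast_zmod_eq_zero_iff_dvd d p).1 h
  have hc : (p : ℤ) ∣ c := (ZMod.intCast_zmod_eq_zero_iff_dvd c p).1 h1.symm
  have h2 : p ∣ Int.gcd c d := by
    have := Int.dvd_coe_gcd hc hd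
    exact_mod_cast this
  have h3 := Nat.le_of_dvd (by norm_num) (h2.trans hg)
  have h4 := hw.2.1
  omega

open Classical in
theorem below : ∃ P0 : ℕ, ∀ c d : ℤ, Int.gcd c d ∣ 2 → ∀ p, P0 ≤ p → IsBad c d p →
    Real.log ((|c| + |d| + 1 : ℤ) : ℝ) ≤ 0.0009 * (p : ℝ) →
    (p : ℝ) / (90 * Real.log p) ≤
      (((range p).filter (fun q => q.Prime ∧ ¬ IsBad c d q)).card : ℝ) := by
  obtain ⟨n1, hn1⟩ := log_det
  obtain ⟨n2, hn2⟩ := gain
  refine ⟨21 * (n1 + n2) + 1000, fun c d hg p hp hw hlog => ?_⟩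
  have hodd : p % 2 = 1 := by
    rcases hw.1.eq_two_or_odd with h | h
    · omega
    · exact h
  obtain ⟨n, hn⟩ : ∃ n, n = 4 * (p - 1) / 21 := ⟨_, rfl⟩
  obtain ⟨b, hb⟩ : ∃ b, b = (p - 1) / 2 - 2 * n := ⟨_, rfl⟩
  have b1 : 21 * n ≤ 4 * (p - 1) := by omega
  have b2 : 4 * (p - 1) < 21 * n + 21 := by omega
  have b3 : b + 2 * n = (p - 1) / 2 := by omega
  have b4 : 5 * n ≤ 8 * b := by omega
  have b5 : 8 * b ≤ 5 * n + 24 := by omega
  have b6 : n1 + n2 ≤ n := by omega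
  have b7 : 100 ≤ n := by omega
  have b8 : n ≤ 2 * b := by omega
  have b9 : b ≤ n := by omega
  have b10 : 2 * b + 4 * n + 1 = p := by omega
  have r1 : (4 : ℝ) * p ≤ 21 * n + 24 := by
    have : 4 * p ≤ 21 * n + 24 := by omega
    exact_mod_cast this
  have r2 : (1000 : ℝ) ≤ p := by exact_mod_cast (by omega : 1000 ≤ p)
  have h0 : (A n b c d).det ≠ 0 :=
    det_ne_zero hw (by omega) b8 b9 (Below_ne hg hw) b3.symm
  have c1 := Below_div_log (by omega) b8 b9 b5 h0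
  have c2 := hn1 n (by omega) b b4 b5 c d (by linarith)
  have c3 := hn2 n (by omega) b b4 b5
  rw [b10] at c1 c3
  have c4 : ∑ q ∈ (Ioo (n / 2) p).filter Nat.Prime, (cp n b q : ℝ) * Real.log q =
      ∑ q ∈ (Ioo (n / 2) p).filter (IsBad c d), (cp n b q : ℝ) * Real.log q +
      ∑ q ∈ (Ioo (n / 2) p).filter (fun q => q.Prime ∧ ¬ IsBad c d q),
        (cp n b q : ℝ) * Real.log q := by
    rw [← sum_filter_add_sum_filter_not ((Ioo (n / 2) p).filter Nat.Prime) (IsBad c d)]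
    congr 1
    · refine sum_congr ?_ fun _ _ => rfl
      ext q
      simp only [mem_filter]
      constructor
      · rintro ⟨⟨h1, _⟩, h2⟩
        exact ⟨h1, h2⟩
      · rintro ⟨h1, h2⟩
        exact ⟨⟨h1, h2.1⟩, h2⟩
    · refine sum_congr ?_ fun _ _ => rfl
      ext q
      simp only [mem_filter]
      tauto
  have hlogp : 0 < Real.log p := Real.log_pos (by exact_mod_cast (by omega : 1 < p))
  set N := (range p).filter (fun q => q.Prime ∧ ¬ IsBad c d q) with hN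
  have c5 : ∑ q ∈ (Ioo (n / 2) p).filter (fun q => q.Prime ∧ ¬ IsBad c d q),
        (cp n b q : ℝ) * Real.log q ≤
      (N.card : ℝ) * (2 * n * Real.log p) := by
    have d2 : ∀ q ∈ (Ioo (n / 2) p).filter (fun q => q.Prime ∧ ¬ IsBad c d q),
        (cp n b q : ℝ) * Real.log q ≤ 2 * n * Real.log p := by
      intro q hq
      obtain ⟨hq1, hq2⟩ := mem_filter.1 hq
      have hq3 := (mem_Ioo.1 hq1).2
      have e1 : (cp n b q : ℝ) ≤ 2 * n := by
        have : cp n b q ≤ 2 * n := by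
          unfold cp
          omega
        exact_mod_cast this
      have e2 : Real.log q ≤ Real.log p := by
        refine Real.log_le_log ?_ ?_
        · exact_mod_cast hq2.1.pos
        · exact_mod_cast hq3.le
      have e3 : 0 ≤ Real.log (q : ℝ) := Real.log_natCast_nonneg q
      exact mul_le_mul e1 e2 e3 (by positivity)
    refine (sum_le_sum d2).trans ?_
    rw [sum_const, nsmul_eq_mul]
    refine mul_le_mul_of_nonneg_right ?_ (by positivity)
    have : ((Ioo (n / 2) p).filter (fun q => q.Prime ∧ ¬ IsBad c d q)).card ≤ N.card := by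
      refine card_le_card fun q hq => ?_
      obtain ⟨hq1, hq2⟩ := mem_filter.1 hq
      rw [hN, mem_filter, mem_range]
      exact ⟨(mem_Ioo.1 hq1).2, hq2⟩
    exact_mod_cast this
  have c6 : 0.13 * (n : ℝ) ^ 2 ≤ (N.card : ℝ) * (2 * n * Real.log p) := by
    linarith
  have hn0 : (0 : ℝ) < n := by exact_mod_cast (by omega : 0 < n)
  have c7 : 0.13 * (n : ℝ) ≤ (N.card : ℝ) * (2 * Real.log p) := by
    have : (n : ℝ) * (0.13 * (n : ℝ)) ≤ n * ((N.card : ℝ) * (2 * Real.log p)) := by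
      calc (n : ℝ) * (0.13 * (n : ℝ)) = 0.13 * (n : ℝ) ^ 2 := by ring
        _ ≤ (N.card : ℝ) * (2 * n * Real.log p) := c6
        _ = n * ((N.card : ℝ) * (2 * Real.log p)) := by ring
    exact le_of_mul_le_mul_left this hn0
  rw [div_le_iff₀ (by positivity)]
  linarith [c7, r1, r2]

end Wols
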