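import Pool.Agent.Lib.Wols.Defs
import Pool.Agent.Lib.MZFin.BBern

/-!
# Bern: `H_((p-1)/2)^(3) = - 2 B_(p-3)` modulo `p`

PROOF. (1) Over `ℚ`: `B_m(1/2) = (2^(1-m) - 1) B_m`. Proof: for natural `x` and `e ≥ 0`, `n = e + 1`,
`∑_{k<2x} k^e = ∑_{k<x} (2k)^e + ∑_{k<x} (2k+1)^e`; with `n ∑_{k<y} k^e = B_n(y) - B_n`
(`Polynomial.sum_range_pow_eq_bernoulli_sub`) and `n ∑_{k<x} (k+1/2)^e = B_n(x+1/2) - B_n(1/2)`
(`Polynomial.bernoulli_eval_one_add`, telescoping) this is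
`B_n(2x) - B_n = 2^e (B_n(x) - B_n) + 2^e (B_n(x+1/2) - B_n(1/2))` for all natural `x`, hence an identity
of polynomials; its derivative (`Polynomial.derivative_bernoulli`) at `x = 0` is
`2 n B_e = 2^e n (B_e + B_e(1/2))`. (Any other proof of (1) is fine, e.g. from
`Polynomial.bernoulli_generating_function`.)
(2) `faul` (module `MZFin.BBern`) with `b = 3`, `n = (p-1)/2`: the left side
`hs (wp p) [3] n = ∑_{m<n} ((m+1)⁻¹)^3` is `Wols.hs p 3` (`hs_cons`, `hs_nil`, `wp`), the right side is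
`∑_{i<p-3} B_i C(p-3,i) (p-3)⁻¹ ((p+1)/2)^(p-3-i)` with `(p+1)/2 = 2⁻¹` in `ZMod p`. All terms are
`p`-integral (`bern_PI`, `rc_sum'`, `rc_mul'`, `PI_div`), so this is the reduction `rc p` of
`(1/(p-3)) ∑_{i<p-3} B_i C(p-3,i) (1/2)^(p-3-i) = (1/(p-3)) (B_(p-3)(1/2) - B_(p-3))
 = (1/(p-3)) (2^(4-p) - 2) B_(p-3)` (`Polynomial.bernoulli_def`, `Polynomial.coeff_bernoulli` or
`Polynomial.eval` of the definition). In `ZMod p`: `p - 3 = -3`, `2^(4-p) = 8` (`2^(p-1) = 1`), so it is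
`(8 - 2)/(-3) B = - 2 B`. The denominator of `B_(p-3)` is not divisible by `p` (`bern_PI`, definition of
`PI`); `rc p x = x.num * (x.den)⁻¹` (definition of `rc` in `MZFin.BCast`).
-/

set_option autoImplicit false

open Finset

namespace Wols

private theorem Bern_split (e x : ℕ) :
    ∑ k ∈ range (2 * x), (k : ℚ) ^ e =
      2 ^ e * ∑ k ∈ range x, (k : ℚ) ^ e + 2 ^ e * ∑ k ∈ range x, ((k : ℚ) + 1 / 2) ^ e := by
  induction x with
  | zero => simp
  | succ x ih =>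
    have h1 : 2 * (x + 1) = 2 * x + 1 + 1 := by ring
    rw [h1, sum_range_succ, sum_range_succ, ih, sum_range_succ _ x, sum_range_succ _ x]
    have h2 : ((2 * x : ℕ) : ℚ) ^ e = 2 ^ e * (x : ℚ) ^ e := by
      rw [← mul_pow]
      push_cast
      ring
    have h3 : ((2 * x + 1 : ℕ) : ℚ) ^ e = 2 ^ e * ((x : ℚ) + 1 / 2) ^ e := by
      rw [← mul_pow]
      push_cast
      ring
    rw [h2, h3]
    ring

private theorem Bern_shift (e x : ℕ) :
    ((e : ℚ) + 1) * ∑ k ∈ range x, ((k : ℚ) + 1 / 2) ^ e =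
      (Polynomial.bernoulli (e + 1)).eval ((x : ℚ) + 1 / 2) -
        (Polynomial.bernoulli (e + 1)).eval (1 / 2) := by
  induction x with
  | zero => simp
  | succ x ih =>
    rw [sum_range_succ, mul_add, ih]
    have h := Polynomial.bernoulli_eval_one_add (e + 1) ((x : ℚ) + 1 / 2)
    have h1 : ((x + 1 : ℕ) : ℚ) + 1 / 2 = 1 + ((x : ℚ) + 1 / 2) := by
      push_cast
      ring
    rw [h1, h, Nat.add_sub_cancel]
    push_cast
    ring

private theorem Bern_half (e : ℕ) :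
    2 ^ e * (Polynomial.bernoulli e).eval (1 / 2 : ℚ) = (2 - 2 ^ e) * bernoulli e := by
  obtain ⟨c, hc⟩ : ∃ c : ℚ, c = - bernoulli (e + 1) + 2 ^ e * bernoulli (e + 1) +
    2 ^ e * (Polynomial.bernoulli (e + 1)).eval (1 / 2) := ⟨_, rfl⟩
  obtain ⟨P, hP⟩ : ∃ P : Polynomial ℚ, P =
      (Polynomial.bernoulli (e + 1)).comp (Polynomial.C 2 * Polynomial.X) -
      Polynomial.C (2 ^ e) * Polynomial.bernoulli (e + 1) -
      Polynomial.C (2 ^ e) *
        (Polynomial.bernoulli (e + 1)).comp (Polynomial.X + Polynomial.C (1 / 2)) +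
      Polynomial.C c := ⟨_, rfl⟩
  have hroot : ∀ x : ℕ, P.eval (x : ℚ) = 0 := by
    intro x
    have h1 := Polynomial.sum_range_pow_eq_bernoulli_sub (2 * x) e
    have h2 := Polynomial.sum_range_pow_eq_bernoulli_sub x e
    have h3 := Bern_shift e x
    have h4 := Bern_split e x
    rw [h4] at h1
    have h5 : ((2 * x : ℕ) : ℚ) = 2 * (x : ℚ) := by push_cast; ring
    rw [h5] at h1
    have h6 : Polynomial.eval (x : ℚ) P =
        (Polynomial.bernoulli (e + 1)).eval (2 * (x : ℚ)) -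
        2 ^ e * (Polynomial.bernoulli (e + 1)).eval (x : ℚ) -
        2 ^ e * (Polynomial.bernoulli (e + 1)).eval ((x : ℚ) + 1 / 2) + c := by
      rw [hP]
      simp only [Polynomial.eval_add, Polynomial.eval_sub, Polynomial.eval_mul,
        Polynomial.eval_comp, Polynomial.eval_C, Polynomial.eval_X]
    rw [h6, hc]
    have h1' : ((e : ℚ) + 1) * (2 ^ e * ∑ k ∈ range x, (k : ℚ) ^ e +
        2 ^ e * ∑ k ∈ range x, ((k : ℚ) + 1 / 2) ^ e) =
        (Polynomial.bernoulli (e + 1)).eval (2 * (x : ℚ)) - bernoulli (e + 1) := h1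
    have h2' : ((e : ℚ) + 1) * ∑ k ∈ range x, (k : ℚ) ^ e =
        (Polynomial.bernoulli (e + 1)).eval (x : ℚ) - bernoulli (e + 1) := h2
    have h7 : ((e : ℚ) + 1) * (2 ^ e * ∑ k ∈ range x, (k : ℚ) ^ e +
        2 ^ e * ∑ k ∈ range x, ((k : ℚ) + 1 / 2) ^ e) =
        2 ^ e * (((e : ℚ) + 1) * ∑ k ∈ range x, (k : ℚ) ^ e) +
        2 ^ e * (((e : ℚ) + 1) * ∑ k ∈ range x, ((k : ℚ) + 1 / 2) ^ e) := by ring
    rw [h7, h2', h3] at h1'
    linarith
  have hP0 : P = 0 := by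
    refine Polynomial.eq_zero_of_infinite_isRoot P ?_
    refine Set.Infinite.mono (s := Set.range fun x : ℕ => (x : ℚ)) ?_
      (Set.infinite_range_of_injective Nat.cast_injective)
    rintro _ ⟨x, rfl⟩
    exact hroot x
  have hder : (Polynomial.derivative P).eval 0 = 0 := by
    rw [hP0]
    simp
  rw [hP] at hder
  simp only [Polynomial.derivative_add, Polynomial.derivative_sub, Polynomial.derivative_comp,
    Polynomial.derivative_C_mul, Polynomial.derivative_C, Polynomial.derivative_X,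
    Polynomial.derivative_bernoulli_add_one, Polynomial.eval_add, Polynomial.eval_sub,
    Polynomial.eval_mul, Polynomial.eval_comp, Polynomial.eval_C, Polynomial.eval_X,
    Polynomial.eval_one, Polynomial.eval_natCast, mul_zero, zero_add,
    add_zero, mul_one, one_mul, Polynomial.bernoulli_eval_zero] at hder
  have hne : ((e : ℚ) + 1) ≠ 0 := by positivity
  have h8 : ((e : ℚ) + 1) * (2 ^ e * (Polynomial.bernoulli e).eval (1 / 2 : ℚ)) =
      ((e : ℚ) + 1) * ((2 - 2 ^ e) * bernoulli e) := by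
    linarith
  exact mul_left_cancel₀ hne h8

private theorem Bern_sum (n : ℕ) :
    ∑ i ∈ range n, bernoulli i * ((n.choose i : ℕ) : ℚ) * (1 / 2) ^ (n - i) =
      (Polynomial.bernoulli n).eval (1 / 2 : ℚ) - bernoulli n := by
  have h : (Polynomial.bernoulli n).eval (1 / 2 : ℚ) =
      ∑ i ∈ range (n + 1), bernoulli i * ((n.choose i : ℕ) : ℚ) * (1 / 2) ^ (n - i) := by
    rw [Polynomial.bernoulli_def, Polynomial.eval_finsetSum]
    rw [← Finset.sum_flip]
    refine sum_congr rfl fun i hi => ?_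
    have hi' : i ≤ n := by
      have := mem_range.1 hi
      omega
    rw [Polynomial.eval_monomial, Nat.sub_sub_self hi', Nat.choose_symm hi']
  rw [h, sum_range_succ]
  simp

theorem hs_three {p : ℕ} (hp : p.Prime) (h7 : 7 ≤ p) :
    ((bernoulli (p - 3)).den : ZMod p) ≠ 0 ∧
    hs p 3 = -(2 * (((bernoulli (p - 3)).num : ZMod p) * ((bernoulli (p - 3)).den : ZMod p)⁻¹)) := by
  have := Fact.mk hp
  have hPI : Pool.MZFin.PI p (bernoulli (p - 3)) := Pool.MZFin.bern_PI hp _ (by omega)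
  refine ⟨hPI, ?_⟩
  have hodd : p % 2 = 1 := by
    rcases hp.eq_two_or_odd with h | h
    · omega
    · exact h
  have h2 : (2 : ZMod p) ≠ 0 := by
    intro h
    have h' : ((2 : ℕ) : ZMod p) = 0 := by exact_mod_cast h
    rw [ZMod.natCast_eq_zero_iff] at h'
    exact absurd (Nat.le_of_dvd (by norm_num) h') (by omega)
  have h3 : (3 : ZMod p) ≠ 0 := by
    intro h
    have h' : ((3 : ℕ) : ZMod p) = 0 := by exact_mod_cast h
    rw [ZMod.natCast_eq_zero_iff] at h'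
    exact absurd (Nat.le_of_dvd (by norm_num) h') (by omega)
  -- the left side
  have hL : hs p 3 = Pool.MZFin.hs (Pool.MZFin.wp p) [3] ((p - 1) / 2) := by
    unfold hs
    rw [Pool.MZFin.hs_cons]
    refine Finset.sum_nbij' (fun v => v - 1) (fun m => m + 1) ?_ ?_ ?_ ?_ ?_
    · intro v hv
      have := mem_Icc.1 hv
      exact mem_range.2 (by omega)
    · intro m hm
      have := mem_range.1 hm
      exact mem_Icc.2 ⟨by omega, by omega⟩
    · intro v hv
      have := mem_Icc.1 hv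
      show v - 1 + 1 = v
      omega
    · intro m _
      show m + 1 - 1 = m
      omega
    · intro v hv
      have := mem_Icc.1 hv
      show ((v : ZMod p)⁻¹) ^ 3 = Pool.MZFin.wp p (v - 1 + 1) ^ 3 * Pool.MZFin.hs _ [] (v - 1)
      rw [Pool.MZFin.hs_nil, mul_one, Nat.sub_add_cancel this.1]
      rfl
  have hK : (((p - 1) / 2 + 1 : ℕ) : ZMod p) = 2⁻¹ := by
    refine eq_inv_of_mul_eq_one_left ?_
    have h4 : ((p - 1) / 2 + 1) * 2 = p + 1 := by omega
    have h5 : ((((p - 1) / 2 + 1) * 2 : ℕ) : ZMod p) = ((p + 1 : ℕ) : ZMod p) := by rw [h4]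
    push_cast at h5
    push_cast
    rw [h5, CharP.cast_eq_zero, zero_add]
  have hp3 : ((p - 3 : ℕ) : ZMod p) = -3 := by
    rw [Nat.cast_sub (by omega), CharP.cast_eq_zero, zero_sub]
    norm_num
  have hF := Pool.MZFin.faul hp 3 (by norm_num) (by omega) ((p - 1) / 2) (by omega)
  rw [hK, hp3] at hF
  -- the sum as the reduction of a rational number
  have hd := Pool.MZFin.PI_div hp 1 2 (by exact_mod_cast h2)
  have hhalf : Pool.MZFin.PI p (1 / 2 : ℚ) ∧ Pool.MZFin.rc p (1 / 2 : ℚ) = 2⁻¹ := by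
    have e1 : ((1 : ℤ) : ℚ) / ((2 : ℕ) : ℚ) = 1 / 2 := by norm_num
    rw [e1] at hd
    refine ⟨hd.1, ?_⟩
    rw [hd.2]
    push_cast
    rw [one_mul]
  have hnat : ∀ m : ℕ, Pool.MZFin.PI p (m : ℚ) ∧ Pool.MZFin.rc p (m : ℚ) = (m : ZMod p) := by
    intro m
    have h6 := Pool.MZFin.PI_int hp (m : ℤ)
    have h7 := Pool.MZFin.rc_intCast p (m : ℤ)
    rw [Int.cast_natCast] at h6 h7
    rw [Int.cast_natCast] at h7
    exact ⟨h6, h7⟩
  have hpow : ∀ k : ℕ, Pool.MZFin.PI p ((1 / 2 : ℚ) ^ k) ∧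
      Pool.MZFin.rc p ((1 / 2 : ℚ) ^ k) = (2⁻¹ : ZMod p) ^ k := by
    intro k
    induction k with
    | zero =>
      have h8 := hnat 1
      rw [Nat.cast_one, Nat.cast_one] at h8
      rw [pow_zero, pow_zero]
      exact h8
    | succ k ih =>
      rw [pow_succ, pow_succ]
      exact ⟨Pool.MZFin.PI_mul hp ih.1 hhalf.1, by
        rw [Pool.MZFin.rc_mul' hp ih.1 hhalf.1, ih.2, hhalf.2]⟩
  have hPI' : ∀ i ∈ range (p - 3), Pool.MZFin.PI p (bernoulli i) := fun i hi =>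
    Pool.MZFin.bern_PI hp i (by have := mem_range.1 hi; omega)
  have hQ : Pool.MZFin.rc p (∑ i ∈ range (p - 3),
      bernoulli i * (((p - 3).choose i : ℕ) : ℚ) * (1 / 2) ^ (p - 3 - i)) =
      ∑ i ∈ range (p - 3), Pool.MZFin.rc p (bernoulli i) * (((p - 3).choose i : ℕ) : ZMod p) *
        (2⁻¹ : ZMod p) ^ (p - 3 - i) := by
    rw [Pool.MZFin.rc_sum' hp]
    · refine sum_congr rfl fun i hi => ?_
      rw [Pool.MZFin.rc_mul' hp (Pool.MZFin.PI_mul hp (hPI' i hi) (hnat _).1) (hpow _).1,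
        Pool.MZFin.rc_mul' hp (hPI' i hi) (hnat _).1, (hnat _).2, (hpow _).2]
    · intro i hi
      exact Pool.MZFin.PI_mul hp (Pool.MZFin.PI_mul hp (hPI' i hi) (hnat _).1) (hpow _).1
  have hPQ : Pool.MZFin.PI p (∑ i ∈ range (p - 3),
      bernoulli i * (((p - 3).choose i : ℕ) : ℚ) * (1 / 2) ^ (p - 3 - i)) :=
    Pool.MZFin.PI_sum hp _ _ fun i hi =>
      Pool.MZFin.PI_mul hp (Pool.MZFin.PI_mul hp (hPI' i hi) (hnat _).1) (hpow _).1
  -- the value of the rational number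
  have hval : ((2 ^ (p - 3) : ℕ) : ℚ) * (∑ i ∈ range (p - 3),
      bernoulli i * (((p - 3).choose i : ℕ) : ℚ) * (1 / 2) ^ (p - 3 - i)) +
      ((2 ^ (p - 3 + 1) : ℕ) : ℚ) * bernoulli (p - 3) = ((2 : ℕ) : ℚ) * bernoulli (p - 3) := by
    rw [Bern_sum]
    have h9 := Bern_half (p - 3)
    push_cast
    rw [mul_sub, h9, pow_succ]
    ring
  have hval' := congrArg (Pool.MZFin.rc p) hval
  rw [Pool.MZFin.rc_add' hp (Pool.MZFin.PI_mul hp (hnat _).1 hPQ)
      (Pool.MZFin.PI_mul hp (hnat _).1 hPI),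
    Pool.MZFin.rc_mul' hp (hnat _).1 hPQ, Pool.MZFin.rc_mul' hp (hnat _).1 hPI,
    Pool.MZFin.rc_mul' hp (hnat _).1 hPI, (hnat _).2, (hnat _).2, (hnat _).2] at hval'
  have h24 : (2 : ZMod p) ^ (p - 3) * 4 = 1 := by
    have h10 := ZMod.pow_card_sub_one_eq_one h2
    have h11 : p - 1 = (p - 3) + 2 := by omega
    rw [h11, pow_add] at h10
    rw [← h10]
    norm_num
  have hrcQ : Pool.MZFin.rc p (∑ i ∈ range (p - 3),
      bernoulli i * (((p - 3).choose i : ℕ) : ℚ) * (1 / 2) ^ (p - 3 - i)) =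
      6 * Pool.MZFin.rc p (bernoulli (p - 3)) := by
    push_cast at hval'
    obtain ⟨q, hq⟩ : ∃ q, q = Pool.MZFin.rc p (∑ i ∈ range (p - 3),
      bernoulli i * (((p - 3).choose i : ℕ) : ℚ) * (1 / 2) ^ (p - 3 - i)) := ⟨_, rfl⟩
    obtain ⟨B, hB⟩ : ∃ B, B = Pool.MZFin.rc p (bernoulli (p - 3)) := ⟨_, rfl⟩
    rw [← hq, ← hB] at hval'
    rw [← hq, ← hB]
    rw [pow_succ] at hval'
    have h12 : ((2 : ZMod p) ^ (p - 3) * 4) * q + 2 * ((2 : ZMod p) ^ (p - 3) * 4) * B =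
        8 * B := by
      linear_combination 4 * hval'
    rw [h24] at h12
    linear_combination h12
  rw [hL, hF]
  have hfin : ∑ i ∈ range (p - 3), Pool.MZFin.rc p (bernoulli i) *
      (((p - 3).choose i : ℕ) : ZMod p) * ((-3 : ZMod p))⁻¹ * (2⁻¹ : ZMod p) ^ (p - 3 - i) =
      (-3 : ZMod p)⁻¹ * ∑ i ∈ range (p - 3), Pool.MZFin.rc p (bernoulli i) *
      (((p - 3).choose i : ℕ) : ZMod p) * (2⁻¹ : ZMod p) ^ (p - 3 - i) := by
    rw [mul_sum]
    exact sum_congr rfl fun i _ => by ring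
  rw [hfin, ← hQ, hrcQ]
  have hrc : Pool.MZFin.rc p (bernoulli (p - 3)) =
      ((bernoulli (p - 3)).num : ZMod p) * ((bernoulli (p - 3)).den : ZMod p)⁻¹ := rfl
  rw [hrc]
  field_simp
  ring

end Wols
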