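import Pool.Agent.Lib.Wols.Below
import Pool.Agent.Lib.Wols.Bern

/-!
# Count: a positive proportion of the primes

PROOF. `count`: as in `Lib/Wief/Count.lean`. Let `X` be large. If there is a bad prime `p` in `(X/2, X]` use
`below` (`X/2500 ≤ 0.0009 p`): `p / (90 log p) ≥ X / (180 log X)`. Otherwise all primes in `(X/2, X]` count: at
least `(θ(X) - θ(X/2)) / log X ≥ (1/2 - ε) X / log X` of them.
`count_bern`: if `c1 = 2 c'` put `d = c'`, `c = c0`, if `c1` is odd `d = c1`, `c = 2 c0`; the gcd is `1` and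
`|c| + |d| + 1 ≤ 4 exp(X/3000) ≤ exp(X/2500)`. For a prime `p ≥ 7` which is not `IsBad c d`: `d hs p 3 ≠ c`; with
`hs_three` (`hs p 3 = - 2 B`, `B = num/den` of `B_(p-3)` in `ZMod p`): `-2 d B ≠ c`, so `c0 + c1 B ≠ 0`. The primes
`2, 3, 5` cost at most `3`: `X/(180 log X) - 3 ≥ X/(200 log X)` for large `X`.
-/

set_option autoImplicit false

open Finset

namespace Wols

private theorem Count_theta : ∃ x1 : ℕ, ∀ n : ℕ, x1 ≤ n →
    0.9 * (n : ℝ) ≤ Chebyshev.theta (n : ℝ) ∧ Chebyshev.theta (n : ℝ) ≤ 1.1 * (n : ℝ) := by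
  have h := PNT.theta_tendsto.comp (tendsto_natCast_atTop_atTop (R := ℝ))
  have h1 := (h.eventually (Ioo_mem_nhds (show (0.9 : ℝ) < 1 by norm_num)
    (show (1 : ℝ) < 1.1 by norm_num)))
  obtain ⟨x1, hx1⟩ := Filter.eventually_atTop.mp h1
  refine ⟨x1 + 1, fun n hn => ?_⟩
  have h2 := hx1 n (by omega)
  have hn0 : (0 : ℝ) < n := by
    have : 0 < n := by omega
    exact_mod_cast this
  simp only [Function.comp] at h2
  have h3 := h2.1
  have h4 := h2.2
  rw [lt_div_iff₀ hn0] at h3
  rw [div_lt_iff₀ hn0] at h4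
  exact ⟨h3.le, h4.le⟩

open Classical in
theorem count : ∃ X0 : ℕ, ∀ X : ℕ, X0 ≤ X → ∀ c d : ℤ, Int.gcd c d ∣ 2 →
    Real.log ((|c| + |d| + 1 : ℤ) : ℝ) ≤ (X : ℝ) / 2500 →
    (X : ℝ) / (180 * Real.log X) ≤
      (((range (X + 1)).filter (fun q => q.Prime ∧ ¬ IsBad c d q)).card : ℝ) := by
  obtain ⟨P0, hP⟩ := below
  obtain ⟨x1, hx⟩ := Count_theta
  refine ⟨2 * P0 + 2 * x1 + 10, fun X hX c d hg hcd => ?_⟩
  set Y := X / 2 with hY
  have hY1 : 2 * Y ≤ X := by omega
  have hY2 : X < 2 * (Y + 1) := by omega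
  have hXr : (10 : ℝ) ≤ X := by
    have : 10 ≤ X := by omega
    exact_mod_cast this
  have hlogX : 0 < Real.log X := Real.log_pos (by linarith)
  by_cases hW : ∃ p, Y < p ∧ p ≤ X ∧ IsBad c d p
  · obtain ⟨p, hp1, hp2, hp3⟩ := hW
    have hpr : (X : ℝ) ≤ 2 * p := by
      have : X ≤ 2 * p := by omega
      exact_mod_cast this
    have h1 := hP c d hg p (by omega) hp3 (by linarith)
    have hp2r : (p : ℝ) ≤ X := by exact_mod_cast hp2
    have hp1r : (1 : ℝ) < p := by linarith
    have hlogp : 0 < Real.log p := Real.log_pos hp1r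
    have hlog : Real.log p ≤ Real.log X := Real.log_le_log (by linarith) hp2r
    have h2 : (X : ℝ) / (180 * Real.log X) ≤ (p : ℝ) / (90 * Real.log p) := by
      rw [div_le_div_iff₀ (by positivity) (by positivity)]
      calc (X : ℝ) * (90 * Real.log p) ≤ (2 * p) * (90 * Real.log X) := by
            apply mul_le_mul hpr (by linarith) (by positivity) (by positivity)
        _ = p * (180 * Real.log X) := by ring
    refine h2.trans (h1.trans ?_)
    refine Nat.cast_le.mpr (card_le_card ?_)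
    intro q hq
    simp only [mem_filter, mem_range] at hq ⊢
    exact ⟨by omega, hq.2.1, hq.2.2⟩
  · have hsub : ((Ioc Y X).filter Nat.Prime) ⊆
        ((range (X + 1)).filter (fun q => q.Prime ∧ ¬ IsBad c d q)) := by
      intro q hq
      rw [mem_filter, mem_Ioc] at hq
      rw [mem_filter, mem_range]
      refine ⟨by omega, hq.2, fun h => hW ⟨q, hq.1.1, hq.1.2, h⟩⟩
    have h1 := (hx X (by omega)).1
    have h2 := (hx Y (by omega)).2
    have hYr : (2 : ℝ) * Y ≤ X := by exact_mod_cast hY1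
    have h3 : Chebyshev.theta (X : ℝ) - Chebyshev.theta (Y : ℝ) =
        ∑ q ∈ (Ioc Y X).filter Nat.Prime, Real.log q := by
      unfold Chebyshev.theta
      rw [Nat.floor_natCast, Nat.floor_natCast]
      have hu : (Ioc 0 X).filter Nat.Prime = (Ioc 0 Y).filter Nat.Prime ∪
          (Ioc Y X).filter Nat.Prime := by
        rw [← filter_union, Ioc_union_Ioc_eq_Ioc (Nat.zero_le _) (by omega)]
      have hd : Disjoint ((Ioc 0 Y).filter Nat.Prime) ((Ioc Y X).filter Nat.Prime) := by
        rw [disjoint_left]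
        intro q hq hq'
        rw [mem_filter, mem_Ioc] at hq hq'
        omega
      rw [hu, sum_union hd]
      ring
    have h4 : ∑ q ∈ (Ioc Y X).filter Nat.Prime, Real.log q ≤
        (((Ioc Y X).filter Nat.Prime).card : ℝ) * Real.log X := by
      rw [← nsmul_eq_mul]
      apply sum_le_card_nsmul
      intro q hq
      rw [mem_filter, mem_Ioc] at hq
      apply Real.log_le_log
      · exact_mod_cast hq.2.pos
      · exact_mod_cast hq.1.2
    have h5 : (((Ioc Y X).filter Nat.Prime).card : ℝ) ≤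
        (((range (X + 1)).filter (fun q => q.Prime ∧ ¬ IsBad c d q)).card : ℝ) := by
      exact_mod_cast card_le_card hsub
    rw [div_le_iff₀ (by positivity)]
    have h6 := mul_le_mul_of_nonneg_right h5 hlogX.le
    nlinarith

private theorem Count_large : ∃ X1 : ℕ, ∀ X : ℕ, X1 ≤ X →
    Real.log (X : ℝ) ≤ (X : ℝ) / 5400 := by
  have h := Real.isLittleO_log_id_atTop.def (show (0 : ℝ) < 1 / 5400 by norm_num)
  have h2 := (tendsto_natCast_atTop_atTop (R := ℝ)).eventually h
  obtain ⟨X1, hX1⟩ := Filter.eventually_atTop.mp h2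
  refine ⟨X1, fun X hX => ?_⟩
  have h3 := hX1 X hX
  simp only [id] at h3
  rw [Real.norm_eq_abs, Real.norm_eq_abs, abs_of_nonneg (Nat.cast_nonneg X : (0 : ℝ) ≤ X)] at h3
  have := le_abs_self (Real.log (X : ℝ))
  linarith

/-- the reduction to `count`: the constants `c`, `d` -/
private theorem Count_cd {c0 c1 : ℤ} (h : IsCoprime c0 c1) {E : ℝ} (hE : 1 ≤ E)
    (h0 : |(c0 : ℝ)| ≤ E) (h1 : |(c1 : ℝ)| ≤ E) :
    ∃ c d : ℤ, Int.gcd c d ∣ 2 ∧ ((|c| + |d| + 1 : ℤ) : ℝ) ≤ 4 * E ∧
      ∀ p : ℕ, ∀ B : ZMod p, (c0 : ZMod p) + (c1 : ZMod p) * B = 0 →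
        (d : ZMod p) * (-(2 * B)) = (c : ZMod p) := by
  rcases Int.even_or_odd c1 with he | ho
  · obtain ⟨c', hc'⟩ := he
    refine ⟨c0, c', ?_, ?_, ?_⟩
    · have hcop : IsCoprime c0 c' := by
        have : c1 = 2 * c' := by omega
        rw [this] at h
        exact h.of_mul_right_right
      rw [Int.isCoprime_iff_gcd_eq_one.mp hcop]
      exact one_dvd _
    · push_cast
      have : (c1 : ℝ) = 2 * (c' : ℝ) := by rw [hc']; push_cast; ring
      rw [this, abs_mul, abs_two] at h1
      have := abs_nonneg (c' : ℝ)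
      linarith
    · intro p B hB
      have : (c1 : ZMod p) = 2 * (c' : ZMod p) := by rw [hc']; push_cast; ring
      rw [this] at hB
      linear_combination (-1 : ZMod p) * hB
  · refine ⟨2 * c0, c1, ?_, ?_, ?_⟩
    · have hcop : IsCoprime (2 * c0) c1 := by
        refine IsCoprime.mul_left ?_ h
        obtain ⟨k, hk⟩ := ho
        exact ⟨-k, 1, by rw [hk]; ring⟩
      rw [Int.isCoprime_iff_gcd_eq_one.mp hcop]
      exact one_dvd _
    · push_cast
      rw [abs_mul, abs_two]
      linarith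
    · intro p B hB
      push_cast
      linear_combination (-2 : ZMod p) * hB

open Classical in
theorem count_bern : ∃ X0 : ℕ, ∀ X : ℕ, X0 ≤ X → ∀ c0 c1 : ℤ, IsCoprime c0 c1 →
    |(c0 : ℝ)| ≤ Real.exp ((X : ℝ) / 3000) → |(c1 : ℝ)| ≤ Real.exp ((X : ℝ) / 3000) →
    (X : ℝ) / (200 * Real.log X) ≤
      (((range (X + 1)).filter (fun p => p.Prime ∧ 7 ≤ p ∧ (c0 : ZMod p) +
        (c1 : ZMod p) * (((bernoulli (p - 3)).num : ZMod p) * ((bernoulli (p - 3)).den : ZMod p)⁻¹) ≠ 0)).card : ℝ) := by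
  obtain ⟨X0, hc⟩ := count
  obtain ⟨X1, hX1⟩ := Count_large
  refine ⟨X0 + X1 + 100000, fun X hX c0 c1 hcop h0 h1 => ?_⟩
  have hXr : (100000 : ℝ) ≤ X := by
    have : 100000 ≤ X := by omega
    exact_mod_cast this
  have hlogX : 0 < Real.log X := Real.log_pos (by linarith)
  obtain ⟨c, d, hg, hE, hB⟩ := Count_cd hcop (Real.one_le_exp (by positivity)) h0 h1
  have hlog : Real.log ((|c| + |d| + 1 : ℤ) : ℝ) ≤ (X : ℝ) / 2500 := by
    have hpos : (0 : ℝ) < ((|c| + |d| + 1 : ℤ) : ℝ) := by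
      have h3 := abs_nonneg c
      have h4 := abs_nonneg d
      have : 0 < |c| + |d| + 1 := by omega
      exact_mod_cast this
    rw [Real.log_le_iff_le_exp hpos]
    refine hE.trans ?_
    have h4 : (4 : ℝ) ≤ Real.exp ((X : ℝ) / 15000) := by
      have := Real.add_one_le_exp ((X : ℝ) / 15000)
      linarith
    calc 4 * Real.exp ((X : ℝ) / 3000) ≤ Real.exp ((X : ℝ) / 15000) * Real.exp ((X : ℝ) / 3000) :=
          mul_le_mul_of_nonneg_right h4 (Real.exp_pos _).le
      _ = Real.exp ((X : ℝ) / 2500) := by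
          rw [← Real.exp_add]
          congr 1
          ring
  have hcount := hc X (by omega) c d hg hlog
  have hL := hX1 X (by omega)
  set S := (range (X + 1)).filter (fun q => q.Prime ∧ ¬ IsBad c d q) with hS
  set T := (range (X + 1)).filter (fun p => p.Prime ∧ 7 ≤ p ∧ (c0 : ZMod p) +
        (c1 : ZMod p) * (((bernoulli (p - 3)).num : ZMod p) *
          ((bernoulli (p - 3)).den : ZMod p)⁻¹) ≠ 0) with hT
  have hsub : S ⊆ T ∪ {2, 3, 5} := by
    intro q hq
    rw [hS, mem_filter, mem_range] at hq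
    obtain ⟨hq1, hq2, hq3⟩ := hq
    by_cases h7 : 7 ≤ q
    · refine mem_union_left _ ?_
      rw [hT, mem_filter, mem_range]
      refine ⟨hq1, hq2, h7, fun h => hq3 ⟨hq2, h7, ?_⟩⟩
      rw [(hs_three hq2 h7).2]
      exact hB q _ h
    · refine mem_union_right _ ?_
      have hlt : q < 7 := by omega
      simp only [mem_insert, mem_singleton]
      interval_cases q <;> first | (left; rfl) | (right; left; rfl) | (right; right; rfl) |
        (exact absurd hq2 (by norm_num))
  have hcard : (S.card : ℝ) ≤ T.card + 3 := by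
    have h5 : S.card ≤ T.card + 3 := by
      refine (card_le_card hsub).trans ((card_union_le _ _).trans ?_)
      have : ({2, 3, 5} : Finset ℕ).card = 3 := by decide
      omega
    exact_mod_cast h5
  have key : (X : ℝ) / (200 * Real.log X) + 3 ≤ (X : ℝ) / (180 * Real.log X) := by
    have e1 : (X : ℝ) / (180 * Real.log X) - (X : ℝ) / (200 * Real.log X) =
        (X : ℝ) / (1800 * Real.log X) := by
      field_simp
      ring
    have e2 : (3 : ℝ) ≤ (X : ℝ) / (1800 * Real.log X) := by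
      rw [le_div_iff₀ (by positivity)]
      linarith
    linarith
  linarith

end Wols
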