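import Mathlib

/-!
# A determinant for the primes `p` dividing `B_(p-3)`: definitions

`n` poles `-i`, `0 ≤ i < n`, of order one and two; `b` is about `5 n / 8`. For a prime `p` put
`K = (p-1)/2`, `Ω_p = {1, ..., K - b}` if `b ≤ K` (and the negative set `{0, -1, ..., -(b-K-1)}` if `b > K`).
`A n b c d` is an explicit integer matrix which is, modulo every prime `p > n/2` with `d H_K^(3) = c`
(`H_K^(m) = ∑_{v ≤ K} 1/v^m mod p`), up to the sign `eps` and outside the rows and columns `i ≥ p`, the Gram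
matrix of the functions `s_i / (u + i)` and `d s_i^2 / (u + i)^2` on `Ω_p` (module `Gram`). Here
`s_i = lcm(1, ..., mx n b i)`. As `H_K^(3) = - 2 B_(p-3) mod p`, the condition is a condition on `B_(p-3)`.
-/

set_option autoImplicit false

open Finset

namespace Wols

/-- the largest denominator at the pole `-i` -/
def mx (n b i : ℕ) : ℕ := max (max i (n - 1 - i)) (2 * (b - i))

/-- the scale `s_i` of the pole `-i` -/
def sc (n b i : ℕ) : ℕ := Nat.lcmUpto (mx n b i)

/-- `s_i^m X_i^(m)`, `X_i^(m) = ∑_{s < i-b} (2/(2s+1))^m - ∑_{s < b-i} (-2/(2s+1))^m - ∑_{t ≤ i} 1/t^m` -/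
def xz (n b i m : ℕ) : ℤ :=
  ∑ s ∈ range (i - b), (2 * ((sc n b i / (2 * s + 1) : ℕ) : ℤ)) ^ m -
    ∑ s ∈ range (b - i), (-(2 * ((sc n b i / (2 * s + 1) : ℕ) : ℤ))) ^ m -
    ∑ t ∈ Icc 1 i, ((sc n b i / t : ℕ) : ℤ) ^ m

/-- `s_i / (j - i)` -/
def dv (n b i j : ℕ) : ℤ := (sc n b i : ℤ) / ((j : ℤ) - i)

/-- the index set: simple poles and double poles -/
abbrev Ix (n : ℕ) : Type := Fin n ⊕ Fin n

/-- the number `i` of the pole `-i` -/
def ix {n : ℕ} : Ix n → ℕ := Sum.elim (fun i => (i : ℕ)) (fun i => (i : ℕ))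

/-- simple x simple -/
def App (n b i j : ℕ) : ℤ :=
  if i = j then xz n b i 2 else
    -(xz n b i 1 * dv n b j i + xz n b j 1 * dv n b i j)

/-- simple x double -/
def Apq (n b : ℕ) (c d : ℤ) (i j : ℕ) : ℤ :=
  if i = j then d * xz n b i 3 + c * (sc n b i : ℤ) ^ 3 else
    d * (dv n b j i ^ 2 * xz n b i 1 + dv n b j i * dv n b i j * xz n b j 1 -
      dv n b i j * xz n b j 2)

/-- double x double -/
def Aqq (n b : ℕ) (d : ℤ) (i j : ℕ) : ℤ :=
  if i = j then d ^ 2 * xz n b i 4 else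
    d ^ 2 * (dv n b j i ^ 2 * xz n b i 2 + dv n b i j ^ 2 * xz n b j 2 -
      2 * (dv n b j i * dv n b i j) * (xz n b i 1 * dv n b j i + xz n b j 1 * dv n b i j))

/-- the matrix -/
def A (n b : ℕ) (c d : ℤ) : Matrix (Ix n) (Ix n) ℤ :=
  Matrix.of fun x y =>
    Sum.elim (fun i : Fin n => Sum.elim (fun j : Fin n => App n b i j)
      (fun j : Fin n => Apq n b c d i j) y)
      (fun i : Fin n => Sum.elim (fun j : Fin n => Apq n b c d j i)
      (fun j : Fin n => Aqq n b d i j) y) x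

/-- the number of elements of `Ω_p` -/
def R (p b : ℕ) : ℕ := ((p - 1) / 2 - b) + (b - (p - 1) / 2)

/-- the sign of `Ω_p` -/
def eps (p b : ℕ) : ZMod p := if b ≤ (p - 1) / 2 then 1 else -1

/-- `u + i` for the `l`-th element `u` of `Ω_p`: `u = l + 1` or `u = - l` -/
def pt (p b l i : ℕ) : ZMod p :=
  if b ≤ (p - 1) / 2 then ((l + 1 + i : ℕ) : ZMod p) else ((i : ℕ) : ZMod p) - ((l : ℕ) : ZMod p)

/-- the value `s_i / (u + i)` modulo `p`; if `p ∣ s_i` it is `-2 (s_i/p)` at `u = -i` and `0` elsewhere -/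
noncomputable def vv (n b p l i : ℕ) : ZMod p :=
  if mx n b i < p then ((sc n b i : ℕ) : ZMod p) * (pt p b l i)⁻¹
  else if l = i then -(2 * ((sc n b i / p : ℕ) : ZMod p)) else 0

/-- the functions on `Ω_p` -/
noncomputable def V (n b : ℕ) (d : ℤ) (p : ℕ) : Matrix (Fin (R p b)) (Ix n) (ZMod p) :=
  Matrix.of fun l x =>
    Sum.elim (fun i : Fin n => vv n b p l i) (fun i : Fin n => (d : ZMod p) * vv n b p l i ^ 2) x

/-- the harmonic sum `H_K^(m)`, `K = (p-1)/2`, modulo `p` -/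
noncomputable def hs (p m : ℕ) : ZMod p := ∑ v ∈ Icc 1 ((p - 1) / 2), ((v : ZMod p)⁻¹) ^ m

/-- the primes that are treated: `d H_K^(3) = c` modulo `p` -/
def IsBad (c d : ℤ) (p : ℕ) : Prop := p.Prime ∧ 7 ≤ p ∧ (d : ZMod p) * hs p 3 = (c : ZMod p)

/-- the size of the rows without the constants -/
def Sz (n b : ℕ) : Ix n → ℕ := Sum.elim (fun i => sc n b i) (fun i => sc n b i ^ 2)

/-- the exponent of a bad prime in the determinant -/
def cp (n b p : ℕ) : ℕ := 2 * n - R p b - 4 * (n - p)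

end Wols
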