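import Pool.Agent.Lib.Wols.Defs

/-!
# Low: a determinant with a submatrix of low rank modulo `p`

PROOF. Let `κ' = κ ⊕ U ⊕ U` (`U` as a subtype). Modulo `p`, `A = W V'` with `W : ι × κ'`, `V' : κ' × ι`:
on `κ`: `W i k = if U i then 0 else e * V k i`, `V' k j = if U j then 0 else V k j`; on the first `U`:
`W i u = if i = u then 1 else 0`, `V' u j = A u j`; on the second `U`: `W i u = if U i then 0 else A i u`,
`V' u j = if j = u then 1 else 0`. (Check: `i ∈ U`: `A i j`. `i ∉ U`, `j ∈ U`: `A i j`. Both not in `U`: `e ∑ V V`.)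
Lift `W, V'` to integer matrices: `A = W V' + p E`. Then `det A` is the determinant of the block matrix
`[p E, W; -V', 1]` (`Matrix.det_fromBlocks_one₂₂`), and in the Leibniz formula every permutation of
`ι ⊕ κ'` maps at least `|ι| - |κ'|` elements of `ι` to `ι`: `p^(|ι| - |κ'|) ∣ det A`. This is exactly the proof of
`Wief.det_dvd` in `Lib/Wief/LinD.lean` (lemmas `LinD_card`, `LinD_blocks` are private there and can be
copied; replace `Vᵀ V` by `W V'`). `|κ'| = |κ| + 2 |U|`.
-/

set_option autoImplicit false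

open Finset

namespace Wols

private lemma Low_card {ι κ : Type*} [Fintype ι] [Fintype κ] (σ : Equiv.Perm (ι ⊕ κ)) :
    Fintype.card ι - Fintype.card κ ≤
      (univ.filter fun i : ι => (σ (Sum.inl i)).isLeft = true).card := by
  classical
  have h1 := Finset.card_filter_add_card_filter_not (s := (univ : Finset ι))
    (fun i : ι => (σ (Sum.inl i)).isLeft = true)
  have h2 : (univ.filter fun i : ι => ¬ (σ (Sum.inl i)).isLeft = true).card ≤ Fintype.card κ := by
    have h3 : ((univ.filter fun i : ι => ¬ (σ (Sum.inl i)).isLeft = true).image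
        fun i => σ (Sum.inl i)) ⊆ (univ : Finset κ).image Sum.inr := by
      intro x hx
      rw [Finset.mem_image] at hx
      obtain ⟨i, hi, rfl⟩ := hx
      rw [Finset.mem_filter] at hi
      rcases h4 : σ (Sum.inl i) with y | y
      · rw [h4] at hi
        exact absurd rfl hi.2
      · exact Finset.mem_image_of_mem _ (Finset.mem_univ y)
    have h5 := Finset.card_le_card h3
    have h6 : Function.Injective fun i : ι => σ (Sum.inl i) :=
      σ.injective.comp Sum.inl_injective
    rw [Finset.card_image_of_injective _ h6,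
      Finset.card_image_of_injective _ Sum.inr_injective] at h5
    exact h5
  rw [Finset.card_univ] at h1
  omega

private lemma Low_blocks {ι κ : Type*} [Fintype ι] [DecidableEq ι] [Fintype κ] [DecidableEq κ]
    (q : ℤ) (E : Matrix ι ι ℤ) (B : Matrix ι κ ℤ) (C : Matrix κ ι ℤ) (D : Matrix κ κ ℤ) :
    q ^ (Fintype.card ι - Fintype.card κ) ∣ (Matrix.fromBlocks (q • E) B C D).det := by
  rw [Matrix.det_apply']
  refine Finset.dvd_sum fun σ _ => Dvd.dvd.mul_left ?_ _
  rw [Fintype.prod_sum_type]
  refine Dvd.dvd.mul_right ?_ _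
  refine (pow_dvd_pow q (Low_card σ)).trans ?_
  rw [← Finset.prod_const]
  refine (Finset.prod_dvd_prod_of_dvd _
    (fun i => Matrix.fromBlocks (q • E) B C D (σ (Sum.inl i)) (Sum.inl i)) ?_).trans
    (Finset.prod_dvd_prod_of_subset _ _ _ (Finset.filter_subset _ _))
  intro i hi
  rw [Finset.mem_filter] at hi
  rcases h4 : σ (Sum.inl i) with y | y
  · show q ∣ Matrix.fromBlocks (q • E) B C D (Sum.inl y) (Sum.inl i)
    rw [Matrix.fromBlocks_apply₁₁, Matrix.smul_apply, smul_eq_mul]
    exact dvd_mul_right _ _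
  · rw [h4] at hi
    exact absurd hi.2 (by simp)

private lemma Low_fac {ι κ : Type*} [Fintype ι] [DecidableEq ι] [Fintype κ] {p : ℕ}
    (A : Matrix ι ι ℤ) (W : Matrix ι κ (ZMod p)) (V : Matrix κ ι (ZMod p))
    (h : ∀ i j, ((A i j : ℤ) : ZMod p) = ∑ k, W i k * V k j) :
    (p : ℤ) ^ (Fintype.card ι - Fintype.card κ) ∣ A.det := by
  classical
  obtain ⟨f, hf⟩ : ∃ f : ZMod p → ℤ, ∀ x, ((f x : ℤ) : ZMod p) = x :=
    ⟨fun x => (ZMod.intCast_surjective x).choose, fun x => (ZMod.intCast_surjective x).choose_spec⟩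
  have hW : ∀ i j, ∃ e : ℤ, A i j - (W.map f * V.map f) i j = p * e := by
    intro i j
    have h1 : (((A i j - (W.map f * V.map f) i j : ℤ)) : ZMod p) = 0 := by
      rw [Int.cast_sub, h i j, sub_eq_zero, Matrix.mul_apply, Int.cast_sum]
      refine Finset.sum_congr rfl fun k _ => ?_
      rw [Int.cast_mul, Matrix.map_apply, Matrix.map_apply, hf, hf]
    obtain ⟨e, he⟩ := (CharP.intCast_eq_zero_iff (ZMod p) p _).1 h1
    exact ⟨e, he⟩
  choose E hE using hW
  have h3 : A = (p : ℤ) • (Matrix.of E) - W.map f * (-(V.map f)) := by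
    ext i j
    rw [Matrix.mul_neg, sub_neg_eq_add, Matrix.add_apply, Matrix.smul_apply, smul_eq_mul,
      Matrix.of_apply, ← hE i j]
    ring
  rw [h3, ← Matrix.det_fromBlocks_one₂₂]
  exact Low_blocks _ _ _ _ _

theorem dvd_low {ι κ : Type*} [Fintype ι] [DecidableEq ι] [Fintype κ] {p : ℕ} (hp : p.Prime)
    (A : Matrix ι ι ℤ) (V : Matrix κ ι (ZMod p)) (e : ZMod p) (U : ι → Prop) [DecidablePred U]
    (h : ∀ i j, ¬ U i → ¬ U j → ((A i j : ℤ) : ZMod p) = e * ∑ k, V k i * V k j) :
    (p : ℤ) ^ (Fintype.card ι - Fintype.card κ - 2 * (univ.filter U).card) ∣ A.det := by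
  classical
  have _ := hp
  have h0 := Low_fac (κ := κ ⊕ ({u // U u} ⊕ {u // U u})) A
    (fun i => Sum.elim (fun k => if U i then 0 else e * V k i)
      (Sum.elim (fun u => if i = u.1 then 1 else 0)
        (fun u => if U i then 0 else ((A i u.1 : ℤ) : ZMod p))))
    (Matrix.of (Sum.elim (fun k j => if U j then 0 else V k j)
      (Sum.elim (fun u j => ((A u.1 j : ℤ) : ZMod p)) (fun u j => if j = u.1 then 1 else 0)))) ?_
  · have hc : Fintype.card (κ ⊕ ({u // U u} ⊕ {u // U u})) =
        Fintype.card κ + 2 * (univ.filter U).card := by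
      rw [Fintype.card_sum, Fintype.card_sum, Fintype.card_subtype, two_mul]
    rw [hc, ← Nat.sub_sub] at h0
    exact h0
  · intro i j
    rw [Fintype.sum_sum_type, Fintype.sum_sum_type]
    simp only [Sum.elim_inl, Sum.elim_inr, Matrix.of_apply]
    by_cases hi : U i
    · simp only [if_pos hi, zero_mul, Finset.sum_const_zero, zero_add, add_zero]
      rw [Finset.sum_eq_single (⟨i, hi⟩ : {u // U u})]
      · rw [if_pos rfl, one_mul]
      · intro u _ hu
        rw [if_neg fun he => hu (Subtype.ext he.symm), zero_mul]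
      · intro hu
        exact absurd (Finset.mem_univ _) hu
    · have hs2 : ∑ u : {u // U u}, (if i = u.1 then (1 : ZMod p) else 0) * ((A u.1 j : ℤ) : ZMod p)
          = 0 := by
        refine Finset.sum_eq_zero fun u _ => ?_
        rw [if_neg (fun he : i = u.1 => hi (he.symm ▸ u.2)), zero_mul]
      rw [hs2, zero_add]
      by_cases hj : U j
      · simp only [if_neg hi, if_pos hj, mul_zero, Finset.sum_const_zero, zero_add]
        rw [Finset.sum_eq_single (⟨j, hj⟩ : {u // U u})]
        · rw [if_pos rfl, mul_one]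
        · intro u _ hu
          rw [if_neg fun he => hu (Subtype.ext he.symm), mul_zero]
        · intro hu
          exact absurd (Finset.mem_univ _) hu
      · have hs3 : ∑ u : {u // U u}, (if U i then 0 else ((A i u.1 : ℤ) : ZMod p)) *
            (if j = u.1 then (1 : ZMod p) else 0) = 0 := by
          refine Finset.sum_eq_zero fun u _ => ?_
          rw [if_neg (fun he : j = u.1 => hj (he.symm ▸ u.2)), mul_zero]
        rw [hs3, add_zero, h i j hi hj, Finset.mul_sum]
        refine Finset.sum_congr rfl fun k _ => ?_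
        rw [if_neg hi, if_neg hj, mul_assoc]

end Wols
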