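import Pool.Agent.Lib.Wols.Scale

/-!
# NonV: the square matrix `V` is injective modulo `p` (confluent Cauchy matrix)

PROOF. `F = ZMod p`, `K = (p-1)/2 = b + 2n`, so `b ≤ K`, `R p b = 2n`, `mx n b i ≤ 2b < p` (`i < n ≤ 2b`), hence
`vv n b p l i = s_i/(l+1+i)`, `l < 2n`, and `1 ≤ l+1+i ≤ 3n < p`. Let `V x = 0`, `x = (x_i, y_i)`. Put
`a_i = x_i s_i`, `c_i = y_i d s_i^2`, `Q = ∏_{k<n} (X + k)`, `Q_i = ∏_{k≠i} (X + k)` and
`P = ∑_i a_i Q_i Q + ∑_i c_i Q_i^2`, of degree `≤ 2n - 1`. `P(l+1) = Q(l+1)^2 ∑_i (a_i/(l+1+i) + c_i/(l+1+i)^2) = 0`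
for the `2n` distinct elements `l+1 ∈ {1, ..., 2n}` of `F` (`2n < p`): `P = 0`
(`Polynomial.eq_zero_of_natDegree_lt_card_of_eval_eq_zero`). At `X = -i`: `c_i ∏_{k≠i} (k-i)^2 = 0`, so `c_i = 0`
(`n ≤ p`). Then `(∑ a_i Q_i) Q = 0`, `Q` monic, so `∑ a_i Q_i = 0`, at `X = -i`: `a_i = 0`. Finally `s_i ≠ 0`
(`sc_ne`), `d ≠ 0`: `x_i = y_i = 0`. (Compare `Lib/Wief/NonV.lean`.)
-/

set_option autoImplicit false

open Finset

namespace Wols

theorem V_inj {n b p : ℕ} {d : ℤ} (hp : p.Prime) (hn0 : 1 ≤ n) (hn : n ≤ 2 * b) (hb : b ≤ n)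
    (hd : (d : ZMod p) ≠ 0) (hR : (p - 1) / 2 = b + 2 * n) (x : Ix n → ZMod p)
    (hx : (V n b d p).mulVec x = 0) : x = 0 := by
  classical
  have : Fact p.Prime := ⟨hp⟩
  have hK : b ≤ (p - 1) / 2 := by omega
  have hRR : R p b = 2 * n := by
    unfold R
    omega
  have hmx : ∀ i : ℕ, i < n → mx n b i < p := by
    intro i hi
    unfold mx
    have : max i (n - 1 - i) < p := by
      rw [max_lt_iff]; omega
    rw [max_lt_iff]
    exact ⟨this, by omega⟩
  have cast_ne : ∀ k : ℕ, 1 ≤ k → k < p → ((k : ℕ) : ZMod p) ≠ 0 := by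
    intro k h1 h2 h3
    rw [ZMod.natCast_eq_zero_iff] at h3
    exact absurd (Nat.le_of_dvd h1 h3) (by omega)
  have scn : ∀ i : ℕ, i < n → ((sc n b i : ℕ) : ZMod p) ≠ 0 := by
    intro i hi h3
    rw [ZMod.natCast_eq_zero_iff] at h3
    have h4 : p ∣ (mx n b i).factorial := h3.trans (Nat.lcmUpto_dvd_factorial _)
    have h5 := (Nat.Prime.dvd_factorial hp).mp h4
    have := hmx i hi
    omega
  set a : Fin n → ZMod p := fun i => x (Sum.inl i) * (sc n b i : ZMod p) with ha
  set c : Fin n → ZMod p := fun i => x (Sum.inr i) * ((d : ZMod p) * (sc n b i : ZMod p) ^ 2)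
    with hc
  set Q : Polynomial (ZMod p) := ∏ k : Fin n, (Polynomial.X + Polynomial.C ((k : ℕ) : ZMod p))
    with hQ
  set q : Fin n → Polynomial (ZMod p) := fun j =>
    ∏ k ∈ univ.erase j, (Polynomial.X + Polynomial.C ((k : ℕ) : ZMod p)) with hq
  have hQq : ∀ j : Fin n, Q = (Polynomial.X + Polynomial.C ((j : ℕ) : ZMod p)) * q j := by
    intro j
    rw [hQ, hq, ← Finset.mul_prod_erase univ _ (mem_univ j)]
  have hQd : Q.natDegree ≤ n := by
    rw [hQ]
    refine (Polynomial.natDegree_prod_le _ _).trans ?_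
    have h2 : ∀ k ∈ (univ : Finset (Fin n)),
        (Polynomial.X + Polynomial.C ((k : ℕ) : ZMod p)).natDegree ≤ 1 := fun k _ => by
      rw [Polynomial.natDegree_X_add_C]
    refine (Finset.sum_le_card_nsmul _ _ 1 h2).trans ?_
    simp
  have hqd : ∀ j : Fin n, (q j).natDegree ≤ n - 1 := by
    intro j
    rw [hq]
    refine (Polynomial.natDegree_prod_le _ _).trans ?_
    have h2 : ∀ k ∈ (univ.erase j : Finset (Fin n)),
        (Polynomial.X + Polynomial.C ((k : ℕ) : ZMod p)).natDegree ≤ 1 := fun k _ => by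
      rw [Polynomial.natDegree_X_add_C]
    refine (Finset.sum_le_card_nsmul _ _ 1 h2).trans ?_
    rw [Finset.card_erase_of_mem (mem_univ j)]
    simp
  have hqz : ∀ i j : Fin n, i ≠ j → (q i).eval (-((j : ℕ) : ZMod p)) = 0 := by
    intro i j hij
    rw [hq]
    simp only
    rw [Polynomial.eval_prod]
    apply Finset.prod_eq_zero (i := j)
    · exact Finset.mem_erase.mpr ⟨fun h => hij h.symm, mem_univ j⟩
    · simp
  have hqn : ∀ j : Fin n, (q j).eval (-((j : ℕ) : ZMod p)) ≠ 0 := by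
    intro j
    rw [hq]
    simp only
    rw [Polynomial.eval_prod, Finset.prod_ne_zero_iff]
    intro k hk
    have hkj : (k : ℕ) ≠ j := fun h => (Finset.mem_erase.mp hk).1 (Fin.ext h)
    simp only [Polynomial.eval_add, Polynomial.eval_X, Polynomial.eval_C]
    intro h
    have h5 : ((k : ℕ) : ZMod p) = ((j : ℕ) : ZMod p) := by linear_combination h
    rw [ZMod.natCast_eq_natCast_iff'] at h5
    rw [Nat.mod_eq_of_lt (by have := k.2; omega), Nat.mod_eq_of_lt (by have := j.2; omega)] at h5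
    exact hkj h5
  set P : Polynomial (ZMod p) := (∑ j : Fin n, Polynomial.C (a j) * q j) * Q +
      ∑ j : Fin n, Polynomial.C (c j) * q j ^ 2 with hP
  -- degree
  have hdeg : P ∈ Polynomial.degreeLT (ZMod p) (2 * n) := by
    refine Submodule.add_mem _ ?_ (Submodule.sum_mem _ fun j _ => ?_)
    · rw [Finset.sum_mul]
      refine Submodule.sum_mem _ fun j _ => ?_
      rw [Polynomial.mem_degreeLT]
      have h1 : (Polynomial.C (a j) * q j * Q).natDegree ≤ (n - 1) + n := by
        refine Polynomial.natDegree_mul_le.trans ?_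
        exact Nat.add_le_add ((Polynomial.natDegree_C_mul_le _ _).trans (hqd j)) hQd
      refine lt_of_le_of_lt Polynomial.degree_le_natDegree ?_
      have h3 : (Polynomial.C (a j) * q j * Q).natDegree < 2 * n := by omega
      exact_mod_cast h3
    · rw [Polynomial.mem_degreeLT]
      have h1 : (Polynomial.C (c j) * q j ^ 2).natDegree ≤ 2 * (n - 1) := by
        refine (Polynomial.natDegree_C_mul_le _ _).trans ?_
        refine Polynomial.natDegree_pow_le.trans ?_
        exact Nat.mul_le_mul_left _ (hqd j)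
      refine lt_of_le_of_lt Polynomial.degree_le_natDegree ?_
      have h3 : (Polynomial.C (c j) * q j ^ 2).natDegree < 2 * n := by omega
      exact_mod_cast h3
  -- values
  have hval : ∀ u : Fin (R p b), P.eval ((((u : ℕ) + 1 : ℕ)) : ZMod p) = 0 := by
    intro u
    have hu : (u : ℕ) < 2 * n := by rw [← hRR]; exact u.2
    have hne : ∀ k : Fin n, ((((u : ℕ) + 1 : ℕ)) : ZMod p) + ((k : ℕ) : ZMod p) ≠ 0 := by
      intro k
      have h1 := cast_ne ((u : ℕ) + 1 + k) (by omega) (by have := k.2; omega)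
      push_cast at h1 ⊢
      exact h1
    have hvv : ∀ k : Fin n, vv n b p u k = ((sc n b k : ℕ) : ZMod p) *
        (((((u : ℕ) + 1 : ℕ)) : ZMod p) + ((k : ℕ) : ZMod p))⁻¹ := by
      intro k
      unfold vv pt
      rw [if_pos (hmx k k.2), if_pos hK]
      push_cast
      rfl
    have hqe : ∀ k : Fin n, (q k).eval ((((u : ℕ) + 1 : ℕ)) : ZMod p) =
        Q.eval ((((u : ℕ) + 1 : ℕ)) : ZMod p) *
          (((((u : ℕ) + 1 : ℕ)) : ZMod p) + ((k : ℕ) : ZMod p))⁻¹ := by
      intro k
      rw [hQq k, Polynomial.eval_mul, Polynomial.eval_add, Polynomial.eval_X, Polynomial.eval_C]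
      have := hne k
      field_simp
    have hVx := congrFun hx u
    rw [Matrix.mulVec, dotProduct, Fintype.sum_sum_type] at hVx
    have e1 : ∀ j : Fin n, V n b d p u (Sum.inl j) = vv n b p u j := fun _ => rfl
    have e2 : ∀ j : Fin n, V n b d p u (Sum.inr j) = (d : ZMod p) * vv n b p u j ^ 2 := fun _ => rfl
    simp only [e1, e2, hvv, Pi.zero_apply] at hVx
    rw [hP, Polynomial.eval_add, Polynomial.eval_mul, Polynomial.eval_finsetSum,
      Polynomial.eval_finsetSum]
    simp only [Polynomial.eval_mul, Polynomial.eval_C, Polynomial.eval_pow, hqe]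
    have h6 : ∀ T : ZMod p, (∑ j : Fin n, a j * (T *
          (((((u : ℕ) + 1 : ℕ)) : ZMod p) + ((j : ℕ) : ZMod p))⁻¹)) * T +
        ∑ j : Fin n, c j * (T *
          (((((u : ℕ) + 1 : ℕ)) : ZMod p) + ((j : ℕ) : ZMod p))⁻¹) ^ 2 =
        T ^ 2 * (∑ j : Fin n, (sc n b j : ZMod p) *
            (((((u : ℕ) + 1 : ℕ)) : ZMod p) + ((j : ℕ) : ZMod p))⁻¹ * x (Sum.inl j) +
          ∑ j : Fin n, (d : ZMod p) * ((sc n b j : ZMod p) *
            (((((u : ℕ) + 1 : ℕ)) : ZMod p) + ((j : ℕ) : ZMod p))⁻¹) ^ 2 * x (Sum.inr j)) := by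
      intro T
      rw [mul_add, Finset.sum_mul, Finset.mul_sum, Finset.mul_sum]
      congr 1
      · refine Finset.sum_congr rfl fun j _ => ?_
        rw [ha]
        ring
      · refine Finset.sum_congr rfl fun j _ => ?_
        rw [hc]
        ring
    rw [h6, hVx, mul_zero]
  -- P = 0
  have hP0 : P = 0 := by
    refine Polynomial.eq_zero_of_degree_lt_of_eval_index_eq_zero (s := (univ : Finset (Fin (R p b))))
      (v := fun u : Fin (R p b) => ((((u : ℕ) + 1 : ℕ)) : ZMod p)) ?_ ?_ (fun u _ => hval u)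
    · intro u _ v _ huv
      have h1 : (u : ℕ) < 2 * n := by rw [← hRR]; exact u.2
      have h2 : (v : ℕ) < 2 * n := by rw [← hRR]; exact v.2
      simp only at huv
      rw [ZMod.natCast_eq_natCast_iff'] at huv
      rw [Nat.mod_eq_of_lt (by omega), Nat.mod_eq_of_lt (by omega)] at huv
      ext
      omega
    · rw [Finset.card_univ, Fintype.card_fin, hRR]
      exact Polynomial.mem_degreeLT.mp hdeg
  -- double poles
  have hinr : ∀ j : Fin n, c j = 0 := by
    intro j
    have h1 : P.eval (-((j : ℕ) : ZMod p)) = 0 := by rw [hP0, Polynomial.eval_zero]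
    have h2 : Q.eval (-((j : ℕ) : ZMod p)) = 0 := by
      rw [hQq j, Polynomial.eval_mul]
      simp
    rw [hP, Polynomial.eval_add, Polynomial.eval_mul, h2, mul_zero, zero_add,
      Polynomial.eval_finsetSum, Finset.sum_eq_single j, Polynomial.eval_mul, Polynomial.eval_C,
      Polynomial.eval_pow] at h1
    · exact (mul_eq_zero.mp h1).resolve_right (pow_ne_zero _ (hqn j))
    · intro i _ hij
      rw [Polynomial.eval_mul, Polynomial.eval_pow, hqz i j hij]
      simp
    · exact fun h => absurd (mem_univ j) h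
  have hQne : Q ≠ 0 := by
    rw [hQ]
    exact (Polynomial.monic_prod_of_monic _ _ (fun k _ => Polynomial.monic_X_add_C _)).ne_zero
  have hS : ∑ j : Fin n, Polynomial.C (a j) * q j = 0 := by
    have h1 : (∑ j : Fin n, Polynomial.C (a j) * q j) * Q = 0 := by
      have h2 : P = (∑ j : Fin n, Polynomial.C (a j) * q j) * Q := by
        rw [hP]
        simp [hinr]
      rw [← h2, hP0]
    exact (mul_eq_zero.mp h1).resolve_right hQne
  have hinl : ∀ j : Fin n, a j = 0 := by
    intro j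
    have h1 : (∑ j : Fin n, Polynomial.C (a j) * q j).eval (-((j : ℕ) : ZMod p)) = 0 := by
      rw [hS, Polynomial.eval_zero]
    rw [Polynomial.eval_finsetSum, Finset.sum_eq_single j, Polynomial.eval_mul,
      Polynomial.eval_C] at h1
    · exact (mul_eq_zero.mp h1).resolve_right (hqn j)
    · intro i _ hij
      rw [Polynomial.eval_mul, hqz i j hij]
      simp
    · exact fun h => absurd (mem_univ j) h
  funext i
  rcases i with j | j
  · have h1 := hinl j
    rw [ha] at h1
    exact (mul_eq_zero.mp h1).resolve_right (scn j j.2)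
  · have h1 := hinr j
    rw [hc] at h1
    exact (mul_eq_zero.mp h1).resolve_right (mul_ne_zero hd (pow_ne_zero _ (scn j j.2)))

end Wols
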