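import Pool.Agent.Lib.Wols.Gram
import Pool.Agent.Lib.Wols.Low
import Pool.Agent.Lib.Wols.NonV
import Pool.Agent.Lib.Wief.LinD

/-!
# Dvd: the determinant is divisible by powers of the bad primes, and not zero

PROOF. `det_dvd`: `dvd_low` with `V = V n b d p`, `e = eps p b`, `U x := p ≤ ix x`, `gram`; `|Ix n| = 2n`,
`|Fin (R p b)| = R p b`, `|U| = 2 (n - p)` (the `i < n` with `p ≤ i`, twice), so the exponent is `cp n b p`.
`det_ne_zero`: here `p > 4 n ≥ n`, `b ≤ (p-1)/2`, `eps = 1`, `R p b = 2 n`; `gram` for all `x, y`;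
`Wief.det_ne` (`|Fin (2n)| = |Ix n|`) with `V_inj`.
-/

set_option autoImplicit false

open Finset

namespace Wols

private lemma Dvd_card (n p : ℕ) :
    ((univ : Finset (Ix n)).filter fun x => p ≤ ix x).card = 2 * (n - p) := by
  have h1 : (∑ i : Fin n, if p ≤ (i : ℕ) then 1 else 0) = n - p := by
    rw [Fin.sum_univ_eq_sum_range (fun i => if p ≤ i then 1 else 0) n, ← Finset.card_filter]
    have h2 : (range n).filter (fun i => p ≤ i) = Ico p n := by
      ext i
      simp only [mem_filter, mem_range, mem_Ico]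
      tauto
    rw [h2, Nat.card_Ico]
  rw [Finset.card_filter, Fintype.sum_sum_type]
  have h3 : ∀ i : Fin n, ix (Sum.inl i : Ix n) = (i : ℕ) := fun i => rfl
  have h4 : ∀ i : Fin n, ix (Sum.inr i : Ix n) = (i : ℕ) := fun i => rfl
  simp only [h3, h4]
  rw [h1]
  ring

private lemma Dvd_ix {n : ℕ} (x : Ix n) : ix x < n := by
  rcases x with i | i
  · exact i.isLt
  · exact i.isLt

theorem det_dvd {n b : ℕ} {c d : ℤ} {p : ℕ} (hbad : IsBad c d p) (hn : n ≤ 2 * b) (hb : b ≤ n)
    (h3 : 2 * b < 3 * p) : (p : ℤ) ^ cp n b p ∣ (A n b c d).det := by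
  have h := dvd_low hbad.1 (A n b c d) (V n b d p) (eps p b) (fun x => p ≤ ix x)
    (fun x y hx hy => gram hbad hn hb h3 x y (not_le.1 hx) (not_le.1 hy))
  rw [Dvd_card, Fintype.card_sum, Fintype.card_fin, Fintype.card_fin] at h
  have e : n + n - R p b - 2 * (2 * (n - p)) = cp n b p := by
    unfold cp
    omega
  rwa [e] at h

theorem det_ne_zero {n b : ℕ} {c d : ℤ} {p : ℕ} (hbad : IsBad c d p) (hn0 : 1 ≤ n)
    (hn : n ≤ 2 * b) (hb : b ≤ n) (hd : (d : ZMod p) ≠ 0) (hR : (p - 1) / 2 = b + 2 * n) :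
    (A n b c d).det ≠ 0 := by
  have h3 : 2 * b < 3 * p := by omega
  have hnp : n < p := by omega
  have he : eps p b = 1 := by
    unfold eps
    rw [if_pos (by omega)]
  have hRR : R p b = 2 * n := by
    unfold R
    omega
  refine Wief.det_ne hbad.1 (A n b c d) (V n b d p) ?_ ?_
    (fun x hx => V_inj hbad.1 hn0 hn hb hd hR x hx)
  · ext x y
    rw [Matrix.map_apply, Matrix.mul_apply,
      gram hbad hn hb h3 x y ((Dvd_ix x).trans hnp) ((Dvd_ix y).trans hnp), he, one_mul]
    rfl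
  · rw [Fintype.card_sum, Fintype.card_fin, Fintype.card_fin, hRR]
    ring

end Wols
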