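import Pool.Agent.Lib.Wols.Count
import Pool.Agent.Lib.K3.Bern
import Pool.Agent.Lib.K3.ZPow

/-! Consequences of `count_bern` for finite multiple zeta values of the weights `3 j`. -/

open Finset

namespace Wols

theorem inf_fz : {p : ℕ | p.Prime ∧ Pool.MZFin.fz p [2, 1] ≠ 0}.Infinite := by
  classical
  intro hfin
  obtain ⟨X0, hX0⟩ := count_bern
  set S := hfin.toFinset with hS
  have hb : ∀ X : ℕ, X0 ≤ X → (X : ℝ) / (200 * Real.log X) ≤ (S.card : ℝ) := by
    intro X hX
    refine (hX0 X hX 0 1 (isCoprime_one_right) (by simpa using (Real.exp_pos _).le) ?_).trans ?_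
    · simpa using Real.one_le_exp (by positivity : (0 : ℝ) ≤ (X : ℝ) / 3000)
    · norm_cast
      refine card_le_card fun p hp => ?_
      rw [hS, Set.Finite.mem_toFinset]
      obtain ⟨-, h1, h2, h3⟩ := mem_filter.1 hp
      have := Fact.mk h1
      refine ⟨h1, ?_⟩
      rw [← Pool.K3.beta_eq_fz, Pool.K3.beta_eq_bern (by omega)]
      simpa [Pool.MZFin.rc] using h3
  -- `X / log X` is unbounded
  have ht : Filter.Tendsto (fun x : ℝ => x / Real.log x) Filter.atTop Filter.atTop := by
    have h1 : Filter.Tendsto (fun x : ℝ => Real.log x / x) Filter.atTop (nhds 0) := by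
      have := Real.isLittleO_log_id_atTop.tendsto_div_nhds_zero
      simpa using this
    have h2 : ∀ᶠ x : ℝ in Filter.atTop, 0 < Real.log x / x := by
      filter_upwards [Filter.eventually_gt_atTop 1] with x hx
      exact div_pos (Real.log_pos hx) (by linarith)
    have h3 := (tendsto_nhdsWithin_iff.2 ⟨h1, h2⟩).inv_tendsto_nhdsGT_zero
    refine h3.congr fun x => ?_
    simp [inv_div]
  have ht' := (ht.comp tendsto_natCast_atTop_atTop).eventually_gt_atTop (200 * (S.card : ℝ))
  obtain ⟨X, hX1, hX2, hX3⟩ := (ht'.and ((Filter.eventually_ge_atTop X0).and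
    (Filter.eventually_ge_atTop 3))).exists
  have h4 := hb X hX2
  have h5 : 0 < Real.log (X : ℝ) := Real.log_pos (by exact_mod_cast (by omega : 1 < X))
  rw [div_le_iff₀ (by positivity)] at h4
  have h6 : 200 * (S.card : ℝ) < (X : ℝ) / Real.log X := hX1
  rw [lt_div_iff₀ h5] at h6
  nlinarith

/-- for every `j` some finite multiple zeta value of weight `3 j` is not zero -/
theorem powers (j : ℕ) : ∃ r : ℕ, ∃ kk : Fin r → ℕ, (∀ a, 1 ≤ kk a) ∧ ∑ a, kk a = 3 * j ∧
    {p : ℕ | p.Prime ∧ Pool.MZFin.fsum p r kk ≠ 0}.Infinite := by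
  by_contra hcon
  push Not at hcon
  have hA : Pool.Agent.K3.IsA (3 * j) 0 := by
    refine ⟨⟨Fin.elim0, fun j => j.elim0, fun j => j.elim0, fun c _ j => j.elim0⟩, ?_⟩
    intro len kk hk
    have hf := hcon (len 0) (kk 0) (hk 0).1 (hk 0).2
    obtain ⟨N, hN⟩ := hf.bddAbove
    refine ⟨fun _ => 1, ⟨N, fun p hp hNp => ?_⟩, 0, one_ne_zero⟩
    rw [Fin.sum_univ_one]
    have h0 : Pool.MZFin.fsum p (len 0) (kk 0) = 0 := by
      by_contra h1
      exact absurd (hN ⟨hp, h1⟩) (by omega)
    rw [h0, mul_zero]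
  exact absurd (Pool.Agent.K3.dim_three_mul inf_fz hA) (by norm_num)

end Wols
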