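import Pool.Agent.Lib.Wols.Defs
import Pool.Agent.Lib.PNT.Theta

/-!
# GainA: `∑_{p ≤ v} log p` and `∑_{p ≤ v} p log p`

PROOF. `theta_near` is `PNT.theta_tendsto`. For `sum_near`: `∑_{p ≤ v} p log p = v θ(v) - ∑_{k<v} θ(k)`
(`p = v - #{k : p ≤ k < v}`, exchange of summations, as in `Lib/Wief/Gain.lean`, `Gain_exch`), and
`|θ(k) - k| ≤ ε' k + C` for ALL `k` (`C` a constant; from `theta_near`, the finitely many small `k` are absorbed
in `C`), so the sum is `v^2 - v(v-1)/2 + O(ε' v^2 + C v) = v^2/2 + O(ε' v^2 + (C+1) v)`.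
-/

set_option autoImplicit false

open Finset

namespace Wols

/-- `∑_{p ≤ v} log p` -/
noncomputable def T0 (v : ℕ) : ℝ := ∑ q ∈ (Ioc 0 v).filter Nat.Prime, Real.log q

/-- `∑_{p ≤ v} p log p` -/
noncomputable def T1 (v : ℕ) : ℝ := ∑ q ∈ (Ioc 0 v).filter Nat.Prime, (q : ℝ) * Real.log q

private theorem GainA_T0 (n : ℕ) : T0 n = Chebyshev.theta (n : ℝ) := by
  unfold T0 Chebyshev.theta
  rw [Nat.floor_natCast]

theorem theta_near (ε : ℝ) (hε : 0 < ε) : ∃ v0 : ℕ, ∀ v : ℕ, v0 ≤ v →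
    |T0 v - v| ≤ ε * v := by
  have hT := PNT.theta_tendsto
  rw [Metric.tendsto_atTop] at hT
  obtain ⟨N, hN⟩ := hT ε hε
  obtain ⟨N', hN'⟩ := exists_nat_ge N
  refine ⟨max N' 1, fun v hv => ?_⟩
  have hvN : N' ≤ v := (le_max_left _ _).trans hv
  have hv1 : 1 ≤ v := (le_max_right _ _).trans hv
  have hv0 : (0 : ℝ) < v := by exact_mod_cast hv1
  have h1 := hN (v : ℝ) (hN'.trans (by exact_mod_cast hvN))
  rw [Real.dist_eq] at h1
  rw [GainA_T0]
  have h2 : Chebyshev.theta (v : ℝ) - v = (Chebyshev.theta (v : ℝ) / v - 1) * v := by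
    rw [sub_mul, div_mul_cancel₀ _ hv0.ne', one_mul]
  rw [h2, abs_mul, abs_of_pos hv0]
  exact mul_le_mul_of_nonneg_right h1.le hv0.le

private theorem GainA_exch (v : ℕ) :
    (v : ℝ) * T0 v - T1 v = ∑ k ∈ range v, T0 k := by
  unfold T0 T1
  rw [mul_sum, ← sum_sub_distrib]
  have h1 : ∀ q ∈ (Ioc 0 v).filter Nat.Prime, (v : ℝ) * Real.log q - (q : ℝ) * Real.log q =
      ∑ k ∈ Ico q v, Real.log q := by
    intro q hq
    simp only [mem_filter, mem_Ioc] at hq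
    rw [sum_const, Nat.card_Ico, nsmul_eq_mul, Nat.cast_sub hq.1.2]
    ring
  rw [sum_congr rfl h1]
  refine sum_comm' fun q k => ?_
  simp only [mem_filter, mem_range, mem_Ico, mem_Ioc]
  constructor
  · rintro ⟨⟨⟨h1, h2⟩, h3⟩, h4, h5⟩
    exact ⟨⟨⟨h1, h4⟩, h3⟩, h5⟩
  · rintro ⟨⟨⟨h1, h4⟩, h3⟩, h5⟩
    exact ⟨⟨⟨h1, by omega⟩, h3⟩, h4, h5⟩

private theorem GainA_sumk (n : ℕ) : ∑ k ∈ range n, (k : ℝ) = (n : ℝ) * (n - 1) / 2 := by
  induction n with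
  | zero => simp
  | succ n ih =>
    rw [sum_range_succ, ih]
    push_cast
    ring

theorem sum_near (ε : ℝ) (hε : 0 < ε) : ∃ v0 : ℕ, ∀ v : ℕ, v0 ≤ v →
    |T1 v - (v : ℝ) ^ 2 / 2| ≤ ε * (v : ℝ) ^ 2 := by
  obtain ⟨v1, hv1⟩ := theta_near (ε / 4) (by positivity)
  set C : ℝ := ∑ k ∈ range v1, |T0 k - k| with hC
  have hC0 : 0 ≤ C := sum_nonneg fun k _ => abs_nonneg _
  have hall : ∀ k : ℕ, |T0 k - k| ≤ ε / 4 * k + C := by
    intro k
    by_cases hk : v1 ≤ k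
    · exact (hv1 k hk).trans (by linarith)
    · have h1 : |T0 k - k| ≤ C :=
        single_le_sum (f := fun k : ℕ => |T0 k - k|) (fun k _ => abs_nonneg _)
          (mem_range.2 (not_le.1 hk))
      have h2 : (0 : ℝ) ≤ ε / 4 * k := by positivity
      linarith
  obtain ⟨N, hN⟩ := exists_nat_ge ((4 * C + 1) / ε)
  refine ⟨N, fun v hv => ?_⟩
  have hvR : (4 * C + 1) / ε ≤ (v : ℝ) := hN.trans (by exact_mod_cast hv)
  rw [div_le_iff₀ hε] at hvR
  have hv0 : (0 : ℝ) ≤ v := Nat.cast_nonneg _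
  have h1 := GainA_exch v
  have h2 : T1 v - (v : ℝ) ^ 2 / 2 =
      (v : ℝ) * (T0 v - v) - ∑ k ∈ range v, (T0 k - k) + v / 2 := by
    rw [sum_sub_distrib, GainA_sumk, ← h1]
    ring
  have h3 : |∑ k ∈ range v, (T0 k - k)| ≤ ε / 4 * (v : ℝ) ^ 2 + C * v := by
    calc |∑ k ∈ range v, (T0 k - k)| ≤ ∑ k ∈ range v, |T0 k - k| := abs_sum_le_sum_abs _ _
      _ ≤ ∑ k ∈ range v, (ε / 4 * v + C) := by
          refine sum_le_sum fun k hk => (hall k).trans ?_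
          have : (k : ℝ) ≤ v := by exact_mod_cast (mem_range.1 hk).le
          have := mul_le_mul_of_nonneg_left this (by positivity : (0 : ℝ) ≤ ε / 4)
          linarith
      _ = ε / 4 * (v : ℝ) ^ 2 + C * v := by
          rw [sum_const, card_range, nsmul_eq_mul]
          ring
  have h4 : |(v : ℝ) * (T0 v - v)| ≤ ε / 4 * (v : ℝ) ^ 2 + C * v := by
    rw [abs_mul, abs_of_nonneg hv0]
    have := mul_le_mul_of_nonneg_left (hall v) hv0
    linarith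
  rw [h2]
  rw [abs_le] at h3 h4 ⊢
  constructor
  · nlinarith
  · nlinarith

end Wols
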