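import Pool.Agent.Lib.Wols.Scale

/-!
# Star: the partial fraction identity at every point of `Ω_p`

`vv_i vv_j = - (vv_i s_j/(i-j) + vv_j s_i/(j-i))` for `i ≠ j`, both `< p`.

PROOF. `F = ZMod p`, `K = (p-1)/2`, `l < R p b`, `z_i = pt p b l i`.
(a) If `mx n b i < p` then `z_i ≠ 0`: if `b ≤ K`, `z_i = l+1+i`, `1 ≤ l+1+i ≤ K - b + n - 1 ≤ K + b - 1 < p`
(`n ≤ 2b`); if `b > K`, `z_i = i - l`, and `l < b - K ≤ i` (otherwise `2(b-i) > 2K`, `2 (b - i) ≥ 2K + 2 > p`,
against `mx < p`), `i - l ≤ i ≤ mx < p`.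
(b) both `mx < p`: `z_j - z_i = j - i ≠ 0` (`dv_good`), `vv = s/z`, `dv n b i j = s_i/(j-i)`,
`dv n b j i = s_j/(i-j)`: `field_simp; ring`.
(c) `mx n b i < p ≤ mx n b j`: `dv n b j i = 0` (`dv_bad`). If `l ≠ j`, `vv_j = 0`, both sides are `0`. If `l = j`:
`K < b` (as `p ≤ mx n b j ≤ max n (2b) = 2b`), `z_i = i - j`, `vv_i = s_i/(i-j)`, and the claim is
`vv_i vv_j = - vv_j s_i/(j-i)`.
(d) symmetric case: exchange `i` and `j` (the statement is symmetric).
(e) both `p ≤ mx`: both `dv` are `0`, and `vv_i vv_j = 0` because `l = i` and `l = j` exclude each other.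
-/

set_option autoImplicit false

open Finset

namespace Wols

private lemma Star_le_mx (n b i : ℕ) : i ≤ mx n b i :=
  (le_max_left _ _).trans (le_max_left _ _)

private lemma Star_two_le_mx (n b i : ℕ) : 2 * (b - i) ≤ mx n b i := le_max_right _ _

private lemma Star_mx_le {n b i : ℕ} (hn : n ≤ 2 * b) (hi : i < n) : mx n b i ≤ 2 * b := by
  unfold mx
  refine max_le (max_le ?_ ?_) ?_ <;> omega

private lemma Star_odd {p : ℕ} (hp : p.Prime) (h7 : 7 ≤ p) : p = 2 * ((p - 1) / 2) + 1 := by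
  rcases hp.eq_two_or_odd with h | h <;> omega

private lemma Star_cast_ne {p t : ℕ} (h0 : 1 ≤ t) (ht : t < p) : ((t : ℕ) : ZMod p) ≠ 0 := by
  intro h
  rw [ZMod.natCast_eq_zero_iff] at h
  exact absurd (Nat.le_of_dvd h0 h) (by omega)

private lemma Star_pt_ne {n b p i l : ℕ} (hp : p.Prime) (h7 : 7 ≤ p) (hn : n ≤ 2 * b)
    (hi : i < n) (hl : l < R p b) (h : mx n b i < p) : pt p b l i ≠ 0 := by
  have ho := Star_odd hp h7
  have h1 := Star_le_mx n b i
  have h2 := Star_two_le_mx n b i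
  unfold R at hl
  generalize (p - 1) / 2 = K at ho hl
  have hK : (p - 1) / 2 = K := by omega
  unfold pt
  rw [hK]
  by_cases hbK : b ≤ K
  · rw [if_pos hbK]
    apply Star_cast_ne <;> omega
  · rw [if_neg hbK]
    have hli : l < i := by omega
    rw [← Nat.cast_sub hli.le]
    apply Star_cast_ne <;> omega

private lemma Star_pt_sub (p b l i j : ℕ) :
    pt p b l j - pt p b l i = ((j : ℕ) : ZMod p) - ((i : ℕ) : ZMod p) := by
  unfold pt
  split_ifs
  · push_cast
    ring
  · ring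

private lemma Star_alg {F : Type} [Field F] {s t z w a c : F} (hz : z ≠ 0) (hw : w ≠ 0)
    (hac : a - c ≠ 0) (h : w - z = a - c) :
    s * z⁻¹ * (t * w⁻¹) = -(s * z⁻¹ * (t * (c - a)⁻¹) + t * w⁻¹ * (s * (a - c)⁻¹)) := by
  have h1 : (c - a)⁻¹ = -(a - c)⁻¹ := by
    rw [← neg_sub a c, inv_neg]
  rw [h1, ← h]
  have h2 : w - z ≠ 0 := by
    rw [h]
    exact hac
  field_simp
  ring

private lemma Star_mixed {n b p i j l : ℕ} (hp : p.Prime) (h7 : 7 ≤ p) (hn : n ≤ 2 * b)
    (hi : i < n) (hj : j < n) (hip : i < p) (hjp : j < p) (hij : i ≠ j)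
    (h1 : mx n b i < p) (h2 : p ≤ mx n b j) :
    vv n b p l i * vv n b p l j =
      -(vv n b p l i * (dv n b j i : ZMod p) + vv n b p l j * (dv n b i j : ZMod p)) := by
  have hd : (dv n b j i : ZMod p) = 0 := dv_bad hp h2 hj hi hjp hip (Ne.symm hij)
  rw [hd]
  by_cases hlj : l = j
  · subst hlj
    have ho := Star_odd hp h7
    have hm := Star_mx_le hn hj
    have hbK : ¬ b ≤ (p - 1) / 2 := by omega
    have e1 : vv n b p l i = ((sc n b i : ℕ) : ZMod p) * (((i : ℕ) : ZMod p) - ((l : ℕ) : ZMod p))⁻¹ := by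
      unfold vv pt
      rw [if_pos h1, if_neg hbK]
    have e2 := (dv_good hp h1 hi hj hij).1
    have : Fact p.Prime := ⟨hp⟩
    have h3 : (((i : ℕ) : ZMod p) - ((l : ℕ) : ZMod p))⁻¹ =
        -(((l : ℕ) : ZMod p) - ((i : ℕ) : ZMod p))⁻¹ := by
      rw [← neg_sub ((l : ℕ) : ZMod p) ((i : ℕ) : ZMod p), inv_neg]
    rw [e1, e2, h3]
    ring
  · have e : vv n b p l j = 0 := by
      unfold vv
      rw [if_neg (not_lt.2 h2), if_neg hlj]
    rw [e]
    ring

theorem star {n b p i j l : ℕ} (hp : p.Prime) (h7 : 7 ≤ p) (hn : n ≤ 2 * b) (hb : b ≤ n)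
    (hi : i < n) (hj : j < n) (hip : i < p) (hjp : j < p) (hij : i ≠ j) (hl : l < R p b) :
    vv n b p l i * vv n b p l j =
      -(vv n b p l i * (dv n b j i : ZMod p) + vv n b p l j * (dv n b i j : ZMod p)) := by
  by_cases h1 : mx n b i < p
  · by_cases h2 : mx n b j < p
    · have : Fact p.Prime := ⟨hp⟩
      have hz := Star_pt_ne hp h7 hn hi hl h1
      have hw := Star_pt_ne hp h7 hn hj hl h2
      have hi2 := dv_good hp h1 hi hj hij
      have hj2 := dv_good hp h2 hj hi (Ne.symm hij)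
      have e1 : vv n b p l i = ((sc n b i : ℕ) : ZMod p) * (pt p b l i)⁻¹ := by
        unfold vv
        rw [if_pos h1]
      have e2 : vv n b p l j = ((sc n b j : ℕ) : ZMod p) * (pt p b l j)⁻¹ := by
        unfold vv
        rw [if_pos h2]
      rw [e1, e2, hi2.1, hj2.1]
      exact Star_alg hz hw hi2.2 (Star_pt_sub p b l i j)
    · exact Star_mixed hp h7 hn hi hj hip hjp hij h1 (not_lt.1 h2)
  · by_cases h2 : mx n b j < p
    · have h := Star_mixed (l := l) hp h7 hn hj hi hjp hip (Ne.symm hij) h2 (not_lt.1 h1)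
      rw [mul_comm, h, add_comm]
    · have hd1 : (dv n b j i : ZMod p) = 0 :=
        dv_bad hp (not_lt.1 h2) hj hi hjp hip (Ne.symm hij)
      have hd2 : (dv n b i j : ZMod p) = 0 := dv_bad hp (not_lt.1 h1) hi hj hip hjp hij
      rw [hd1, hd2, mul_zero, mul_zero, add_zero, neg_zero]
      by_cases hli : l = i
      · have hlj : l ≠ j := fun h => hij (hli.symm.trans h)
        have e : vv n b p l j = 0 := by
          unfold vv
          rw [if_neg h2, if_neg hlj]
        rw [e, mul_zero]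
      · have e : vv n b p l i = 0 := by
          unfold vv
          rw [if_neg h1, if_neg hli]
        rw [e, zero_mul]

end Wols
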