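import Pool.Agent.Lib.Wols.Scale

/-!
# XBad: the numbers `s_i^m X_i^(m)` modulo `p`, `p ∣ s_i`, `i < p`

PROOF. `F = ZMod p`, `p ≤ mx n b i`, `i < p`, `p = 2K+1`. As `s_i = 0` in `F` (`sc_zero`) the last term is `0`.
Then `K < b`: otherwise `2b < p`, and `mx n b i ≤ max n (2b) ≤ 2b < p` (`i < n ≤ 2b`). So `eps = -1`,
`R p b = b - K`. `t ≤ i < p`: `p ∤ t`, `div_bad`, the third sum is `0` (`m ≥ 1`). `2s+1 ≤ 2(i-b)-1 < p` for
`s < i - b` (`i ≤ p - 1` and `p ≤ 2b + 1`... : `2(i-b) - 1 ≤ 2(p-1-b)-1 < p` because `p - 2b - 3 < 0`): the first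
sum is `0`. Second sum: `2s+1 ≤ 2(b-i)-1 < 2b < 3p`, odd; so `p ∣ 2s+1` only for `2s+1 = p`, `s = K`,
which occurs iff `K < b - i` iff `i < b - K = R p b`, with value `(-(2 (s_i/p)))^m`; all other terms are
`0` (`div_bad`, `2s+1 ≤ mx`). So `xz = -(-(2(s_i/p)))^m` if `i < R p b` and `0` otherwise, which is
`- ∑_l vv n b p l i ^ m` (`vv` is `-(2 (s_i/p))` at `l = i`, `0` elsewhere, `m ≥ 1`; `Fin.sum_univ_eq_sum_range`,
`Finset.sum_ite_eq`).
-/

set_option autoImplicit false

open Finset

namespace Wols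

theorem X_bad {n b p i m : ℕ} (hp : p.Prime) (h7 : 7 ≤ p) (hn : n ≤ 2 * b) (hb : b ≤ n)
    (h3 : 2 * b < 3 * p) (hi : i < n) (hip : i < p) (hmx : p ≤ mx n b i) (hm : 1 ≤ m) :
    (xz n b i m : ZMod p) =
      eps p b * ∑ l : Fin (R p b), vv n b p l i ^ m - ((sc n b i : ℕ) : ZMod p) ^ m * hs p m := by
  have hodd : p % 2 = 1 := by
    rcases hp.eq_two_or_odd with h | h
    · omega
    · exact h
  obtain ⟨K, hK⟩ : ∃ K, p = 2 * K + 1 := ⟨p / 2, by omega⟩
  have hKK : (p - 1) / 2 = K := by omega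
  have hm0 : m ≠ 0 := by omega
  have himx : i ≤ mx n b i := le_trans (le_max_left _ _) (le_max_left _ _)
  have hbmx : 2 * (b - i) ≤ mx n b i := le_max_right _ _
  have hKb : K < b := by
    by_contra hcon
    have h1 : mx n b i < p := by
      unfold mx
      have : max (max i (n - 1 - i)) (2 * (b - i)) ≤ 2 * b := by
        refine max_le (max_le ?_ ?_) ?_ <;> omega
      omega
    omega
  have hs0 : ((sc n b i : ℕ) : ZMod p) = 0 := sc_zero hp hmx
  have e1 : ((∑ s ∈ range (i - b), (2 * ((sc n b i / (2 * s + 1) : ℕ) : ℤ)) ^ m : ℤ) : ZMod p) = 0 := by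
    rw [Int.cast_sum]
    refine Finset.sum_eq_zero fun s hs => ?_
    rw [Finset.mem_range] at hs
    have hd : ((sc n b i / (2 * s + 1) : ℕ) : ZMod p) = 0 := by
      refine div_bad hp hmx (by omega) (by omega) ?_
      intro hdvd
      have := Nat.le_of_dvd (by omega) hdvd
      omega
    rw [Int.cast_pow, Int.cast_mul, Int.cast_natCast, hd, mul_zero, zero_pow hm0]
  have e3 : ((∑ t ∈ Icc 1 i, ((sc n b i / t : ℕ) : ℤ) ^ m : ℤ) : ZMod p) = 0 := by
    rw [Int.cast_sum]
    refine Finset.sum_eq_zero fun t ht => ?_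
    rw [Finset.mem_Icc] at ht
    have hd : ((sc n b i / t : ℕ) : ZMod p) = 0 := by
      refine div_bad hp hmx ht.1 (by omega) ?_
      intro hdvd
      have := Nat.le_of_dvd (by omega) hdvd
      omega
    rw [Int.cast_pow, Int.cast_natCast, hd, zero_pow hm0]
  have e2 : ((∑ s ∈ range (b - i), (-(2 * ((sc n b i / (2 * s + 1) : ℕ) : ℤ))) ^ m : ℤ) : ZMod p) =
      if K < b - i then (-(2 * ((sc n b i / p : ℕ) : ZMod p))) ^ m else 0 := by
    rw [Int.cast_sum]
    have hterm : ∀ s ∈ range (b - i),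
        (((-(2 * ((sc n b i / (2 * s + 1) : ℕ) : ℤ))) ^ m : ℤ) : ZMod p) =
          if s = K then (-(2 * ((sc n b i / p : ℕ) : ZMod p))) ^ m else 0 := by
      intro s hs
      rw [Finset.mem_range] at hs
      rw [Int.cast_pow, Int.cast_neg, Int.cast_mul, Int.cast_natCast]
      split_ifs with hsK
      · subst hsK
        rw [← hK]
        norm_num
      · have hd : ((sc n b i / (2 * s + 1) : ℕ) : ZMod p) = 0 := by
          refine div_bad hp hmx (by omega) (by omega) ?_
          rintro ⟨c, hc⟩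
          have hc3 : c < 3 := by
            by_contra hc3
            have : p * 3 ≤ p * c := Nat.mul_le_mul_left _ (by omega)
            omega
          interval_cases c <;> omega
        rw [hd, mul_zero, neg_zero, zero_pow hm0]
    rw [Finset.sum_congr rfl hterm, Finset.sum_ite_eq' (range (b - i)) K]
    simp only [Finset.mem_range]
  have hx : (xz n b i m : ZMod p) =
      - (if K < b - i then (-(2 * ((sc n b i / p : ℕ) : ZMod p))) ^ m else 0) := by
    unfold xz
    rw [Int.cast_sub, Int.cast_sub, e1, e2, e3]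
    ring
  have heps : eps p b = -1 := by
    unfold eps
    rw [hKK, if_neg (by omega)]
  have hR : R p b = b - K := by
    unfold R
    rw [hKK]
    omega
  have hsum : ∑ l : Fin (R p b), vv n b p l i ^ m =
      if K < b - i then (-(2 * ((sc n b i / p : ℕ) : ZMod p))) ^ m else 0 := by
    rw [Fin.sum_univ_eq_sum_range (fun l => vv n b p l i ^ m) (R p b)]
    have hterm : ∀ l ∈ range (R p b), vv n b p l i ^ m =
        if l = i then (-(2 * ((sc n b i / p : ℕ) : ZMod p))) ^ m else 0 := by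
      intro l _
      unfold vv
      rw [if_neg (by omega)]
      split_ifs with hl
      · rfl
      · exact zero_pow hm0
    rw [Finset.sum_congr rfl hterm, Finset.sum_ite_eq' (range (R p b)) i]
    simp only [Finset.mem_range, hR]
    by_cases h : K < b - i
    · rw [if_pos h, if_pos (by omega)]
    · rw [if_neg h, if_neg (by omega)]
  rw [hx, hsum, heps, hs0, zero_pow hm0]
  ring

end Wols
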