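import Pool.Agent.Lib.Wols.Scale

/-!
# XGood: the numbers `X_i^(m)` modulo `p`, `p` prime to `s_i`

PROOF. Let `K = (p-1)/2` (`p = 2K + 1`), `s = s_i`, `F = ZMod p`, `mx = mx n b i < p`. By `div_good`
(all of `t ≤ i`, `2s'+1 ≤ 2(i-b)-1 ≤ i` for `s' < i-b` (because `i ≤ n ≤ 2b`), `2s'+1 ≤ 2(b-i)-1` for
`s' < b-i` are `≤ mx`): `xz n b i m = s^m (Φ - H_i)`, `H_j := ∑_{v ∈ Icc 1 j} (v⁻¹)^m`,
`Φ = ∑_{s'<i-b} (2/(2s'+1))^m - ∑_{s'<b-i} (-2/(2s'+1))^m`.
`K + i ≥ b`: otherwise `2(b-i) ≥ 2K+2 > p`, against `mx < p`. Put `w = K + i - b`. Then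
`H_w = H_K + Φ`: if `i ≥ b`, `H_w - H_K = ∑_{s'<i-b} ((K+1+s')⁻¹)^m` and `K+1+s' = (2s'+1)/2` in `F`; if `i < b`,
`H_K - H_w = ∑_{s'<b-i} ((K-s')⁻¹)^m` and `K - s' = -(2s'+1)/2` in `F`. So
`xz = s^m (H_w - H_i) - s^m hs p m`.
If `b ≤ K`: `R p b = K - b`, `w = i + R`, `H_w - H_i = ∑_{l<R} ((l+1+i)⁻¹)^m = ∑_l ((pt p b l i)⁻¹)^m`, `eps = 1`.
If `b > K`: `R p b = b - K`, `i = w + R`, `H_i - H_w = ∑_{l<R} ((i-l)⁻¹)^m = ∑_l ((pt p b l i)⁻¹)^m`, `eps = -1`.
In both cases `vv n b p l i = s (pt p b l i)⁻¹` (`mx < p`). Sums over `Fin (R p b)`: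
`Fin.sum_univ_eq_sum_range`.
-/

set_option autoImplicit false

open Finset

namespace Wols

private noncomputable def xGood_H (p m j : ℕ) : ZMod p := ∑ v ∈ Icc 1 j, ((v : ZMod p)⁻¹) ^ m

private theorem xGood_up (p m j d : ℕ) :
    xGood_H p m (j + d) = xGood_H p m j + ∑ s ∈ range d, (((j + 1 + s : ℕ) : ZMod p)⁻¹) ^ m := by
  induction d with
  | zero => simp
  | succ d ih =>
    have h1 : xGood_H p m (j + (d + 1)) =
        xGood_H p m (j + d) + (((j + 1 + d : ℕ) : ZMod p)⁻¹) ^ m := by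
      unfold xGood_H
      rw [← add_assoc, Finset.sum_Icc_succ_top (by omega)]
      have : j + d + 1 = j + 1 + d := by omega
      rw [this]
    rw [h1, ih, sum_range_succ]
    ring

private theorem xGood_dn (p m j d : ℕ) :
    xGood_H p m (j + d) = xGood_H p m j + ∑ s ∈ range d, (((j + d - s : ℕ) : ZMod p)⁻¹) ^ m := by
  rw [xGood_up]
  congr 1
  rw [← sum_range_reflect]
  refine sum_congr rfl fun s hs => ?_
  rw [mem_range] at hs
  have : j + 1 + (d - 1 - s) = j + d - s := by omega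
  rw [this]

private theorem xGood_cast {n b p i m : ℕ} (hp : p.Prime) (hn : n ≤ 2 * b)
    (hi : i < n) (hmx : mx n b i < p) :
    (xz n b i m : ZMod p) = ((sc n b i : ℕ) : ZMod p) ^ m *
      (∑ s ∈ range (i - b), (2 * ((2 * s + 1 : ℕ) : ZMod p)⁻¹) ^ m -
        ∑ s ∈ range (b - i), (-(2 * ((2 * s + 1 : ℕ) : ZMod p)⁻¹)) ^ m - xGood_H p m i) := by
  have hi0 : i ≤ mx n b i := (le_max_left _ _).trans (le_max_left _ _)
  have hb0 : 2 * (b - i) ≤ mx n b i := le_max_right _ _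
  unfold xz xGood_H
  rw [Int.cast_sub, Int.cast_sub, Int.cast_sum, Int.cast_sum, Int.cast_sum, mul_sub, mul_sub,
    mul_sum, mul_sum, mul_sum]
  congr 1
  · congr 1
    · refine sum_congr rfl fun s hs => ?_
      rw [mem_range] at hs
      rw [Int.cast_pow, Int.cast_mul, Int.cast_natCast,
        div_good hp hmx (by omega : 1 ≤ 2 * s + 1) (by omega), ← mul_pow]
      congr 1
      push_cast
      ring
    · refine sum_congr rfl fun s hs => ?_
      rw [mem_range] at hs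
      rw [Int.cast_pow, Int.cast_neg, Int.cast_mul, Int.cast_natCast,
        div_good hp hmx (by omega : 1 ≤ 2 * s + 1) (by omega), ← mul_pow]
      congr 1
      push_cast
      ring
  · refine sum_congr rfl fun t ht => ?_
    rw [mem_Icc] at ht
    rw [Int.cast_pow, Int.cast_natCast, div_good hp hmx ht.1 (by omega), mul_pow]

private theorem xGood_inv {p : ℕ} (h2 : (2 : ZMod p) ≠ 0) [Fact p.Prime] {x y : ZMod p}
    (h : 2 * x = y) : x⁻¹ = 2 * y⁻¹ := by
  rw [← h, mul_inv, ← mul_assoc, mul_inv_cancel₀ h2, one_mul]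

private theorem xGood_phi {n b p i m : ℕ} (hp : p.Prime) (h7 : 7 ≤ p) 
    (hmx : mx n b i < p) :
    b ≤ (p - 1) / 2 + i ∧ xGood_H p m ((p - 1) / 2 + i - b) = xGood_H p m ((p - 1) / 2) +
      (∑ s ∈ range (i - b), (2 * ((2 * s + 1 : ℕ) : ZMod p)⁻¹) ^ m -
        ∑ s ∈ range (b - i), (-(2 * ((2 * s + 1 : ℕ) : ZMod p)⁻¹)) ^ m) := by
  have hF : Fact p.Prime := ⟨hp⟩
  have hb0 : 2 * (b - i) ≤ mx n b i := le_max_right _ _
  have hodd : p % 2 = 1 := by
    rcases hp.eq_two_or_odd with h | h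
    · omega
    · exact h
  obtain ⟨K, hK⟩ : ∃ K, p = 2 * K + 1 := ⟨p / 2, by omega⟩
  have hK2 : (p - 1) / 2 = K := by omega
  rw [hK2]
  have h2 : (2 : ZMod p) ≠ 0 := by
    intro h
    have h' : ((2 : ℕ) : ZMod p) = 0 := by exact_mod_cast h
    rw [ZMod.natCast_eq_zero_iff] at h'
    have := Nat.le_of_dvd (by omega) h'
    omega
  have hp0 : ((2 * K + 1 : ℕ) : ZMod p) = 0 := by
    rw [← hK]
    exact ZMod.natCast_self p
  refine ⟨by omega, ?_⟩
  rcases le_or_gt b i with hbi | hbi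
  · have e1 : b - i = 0 := by omega
    have e2 : K + i - b = K + (i - b) := by omega
    rw [e1, e2, range_zero, sum_empty, sub_zero, xGood_up]
    congr 1
    refine sum_congr rfl fun s _ => ?_
    congr 1
    refine xGood_inv h2 ?_
    have e3 : (2 : ZMod p) * ((K + 1 + s : ℕ) : ZMod p) =
        ((2 * K + 1 : ℕ) : ZMod p) + ((2 * s + 1 : ℕ) : ZMod p) := by
      push_cast
      ring
    rw [e3, hp0, zero_add]
  · have e1 : i - b = 0 := by omega
    obtain ⟨j, hj⟩ : ∃ j, K = j + (b - i) := ⟨K - (b - i), by omega⟩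
    have e2 : K + i - b = j := by omega
    have e4 := xGood_dn p m j (b - i)
    rw [← hj] at e4
    rw [e1, e2, range_zero, sum_empty, zero_sub, e4]
    have e5 : ∑ s ∈ range (b - i), (((K - s : ℕ) : ZMod p)⁻¹) ^ m =
        ∑ s ∈ range (b - i), (-(2 * ((2 * s + 1 : ℕ) : ZMod p)⁻¹)) ^ m := by
      refine sum_congr rfl fun s hs => ?_
      rw [mem_range] at hs
      congr 1
      have e6 : (2 : ZMod p) * ((K - s : ℕ) : ZMod p) = -((2 * s + 1 : ℕ) : ZMod p) := by
        have e7 : ((K - s : ℕ) : ZMod p) = (K : ZMod p) - (s : ZMod p) := by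
          rw [Nat.cast_sub (by omega)]
        rw [e7]
        have e8 : (2 : ZMod p) * ((K : ZMod p) - (s : ZMod p)) =
            ((2 * K + 1 : ℕ) : ZMod p) - ((2 * s + 1 : ℕ) : ZMod p) := by
          push_cast
          ring
        rw [e8, hp0, zero_sub]
      rw [xGood_inv h2 e6, inv_neg, mul_neg]
    rw [e5]
    ring

theorem X_good {n b p i m : ℕ} (hp : p.Prime) (h7 : 7 ≤ p) (hn : n ≤ 2 * b) (hb : b ≤ n)
    (hi : i < n) (hmx : mx n b i < p) (hm : 1 ≤ m) :
    (xz n b i m : ZMod p) =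
      eps p b * ∑ l : Fin (R p b), vv n b p l i ^ m - ((sc n b i : ℕ) : ZMod p) ^ m * hs p m := by
  have hF : Fact p.Prime := ⟨hp⟩
  obtain ⟨hKi, hphi⟩ := xGood_phi (n := n) (b := b) (p := p) (i := i) (m := m) hp h7 hmx
  have hhs : hs p m = xGood_H p m ((p - 1) / 2) := rfl
  have hvv : ∀ l, vv n b p l i = ((sc n b i : ℕ) : ZMod p) * (pt p b l i)⁻¹ := fun l => by
    unfold vv
    rw [if_pos hmx]
  have hsum : ∑ l : Fin (R p b), vv n b p l i ^ m =
      ((sc n b i : ℕ) : ZMod p) ^ m * ∑ l ∈ range (R p b), ((pt p b l i)⁻¹) ^ m := by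
    rw [Fin.sum_univ_eq_sum_range (fun l => vv n b p l i ^ m), mul_sum]
    exact sum_congr rfl fun l _ => by rw [hvv, mul_pow]
  have hmain : eps p b * ∑ l ∈ range (R p b), ((pt p b l i)⁻¹) ^ m =
      xGood_H p m ((p - 1) / 2 + i - b) - xGood_H p m i := by
    rcases le_or_gt b ((p - 1) / 2) with h | h
    · have e1 : eps p b = 1 := if_pos h
      have e2 : (p - 1) / 2 + i - b = i + R p b := by
        unfold R
        omega
      rw [e1, one_mul, e2, xGood_up, add_sub_cancel_left]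
      refine sum_congr rfl fun l _ => ?_
      unfold pt
      rw [if_pos h]
      have : l + 1 + i = i + 1 + l := by omega
      rw [this]
    · have e1 : eps p b = -1 := if_neg (by omega)
      have e3 : R p b ≤ i := by
        unfold R
        omega
      have e2 : i = ((p - 1) / 2 + i - b) + R p b := by
        unfold R
        omega
      have e4 := xGood_dn p m ((p - 1) / 2 + i - b) (R p b)
      rw [← e2] at e4
      rw [e1, e4]
      have e5 : ∑ l ∈ range (R p b), ((pt p b l i)⁻¹) ^ m =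
          ∑ l ∈ range (R p b), (((i - l : ℕ) : ZMod p)⁻¹) ^ m := by
        refine sum_congr rfl fun l hl => ?_
        rw [mem_range] at hl
        unfold pt
        rw [if_neg (by omega), Nat.cast_sub (by omega)]
      rw [e5]
      ring
  rw [xGood_cast hp hn hi hmx, hsum, hhs]
  have e6 : eps p b * (((sc n b i : ℕ) : ZMod p) ^ m * ∑ l ∈ range (R p b), ((pt p b l i)⁻¹) ^ m) =
      ((sc n b i : ℕ) : ZMod p) ^ m *
        (eps p b * ∑ l ∈ range (R p b), ((pt p b l i)⁻¹) ^ m) := by ring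
  rw [e6, hmain, hphi]
  ring

end Wols
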