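import Pool.Agent.Lib.Wols.Half
import Pool.Agent.Lib.Wols.XGood
import Pool.Agent.Lib.Wols.XBad
import Pool.Agent.Lib.Wols.Star

/-!
# Gram: `A` is a Gram matrix modulo the bad primes

PROOF. `F = ZMod p`, `P_m(i) = eps ∑_l vv_i(l)^m`, `s_i`, `h_m = hs p m`; by `X_good`/`X_bad` (all `i < p`):
`xz_i,m = P_m(i) - s_i^m h_m`, `h_2 = h_4 = 0` (`hs_even`), `d h_3 = c` (`IsBad`). Write `t = dv n b j i`
(`= s_j/(i-j)`), `t' = dv n b i j` (`= s_i/(j-i)`), mod `p`; `s_i t = - s_j t'` (from `dv_mul`: both are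
`s_i s_j/(i-j)`; in `F`: `t (i-j) = s_j`, `t' (j-i) = s_i` as integers, so `s_i t (i-j) = s_i s_j = - s_j t' (i - j)` in
`ℤ`, cancel `i - j ≠ 0` in `ℤ`, then cast). Pointwise (`star`): `vv_i vv_j = -(vv_i t + vv_j t')`.
Simple x simple, `i ≠ j`: `eps ∑ vv_i vv_j = -(P_1(i) t + P_1(j) t')` and
`-(xz_i1 t + xz_j1 t')` differs by `h_1 (s_i t + s_j t') = 0`. `i = j`: `xz_i2 = P_2(i)`.
Simple(i) x double(j), `i ≠ j`: `vv_i vv_j^2 = -(vv_i vv_j t + vv_j^2 t') = (vv_i t + vv_j t') t - vv_j^2 t'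
 = t^2 vv_i + t t' vv_j - t' vv_j^2`; `h_1`-part of `Apq`: `-h_1 t (t s_i + t' s_j) = 0`, `h_2 = 0`.
`i = j`: `d xz_i3 + c s_i^3 = d P_3(i)`.
Double x double, `i ≠ j`: `(vv_i vv_j)^2 = (vv_i t + vv_j t')^2 = t^2 vv_i^2 + t'^2 vv_j^2 + 2 t t' vv_i vv_j
 = t^2 vv_i^2 + t'^2 vv_j^2 - 2 t t' (vv_i t + vv_j t')`. `i = j`: `d^2 xz_i4 = d^2 P_4(i)`.
Sums: `Finset.mul_sum`, `Finset.sum_add_distrib`, or `simp only [Finset.sum_congr ...]`; it is convenient to prove
the three pointwise identities first, then sum.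
-/

set_option autoImplicit false

open Finset

namespace Wols

private theorem Gram_X {n b p i m : ℕ} (hp : p.Prime) (h7 : 7 ≤ p) (hn : n ≤ 2 * b) (hb : b ≤ n)
    (h3 : 2 * b < 3 * p) (hi : i < n) (hip : i < p) (hm : 1 ≤ m) :
    (xz n b i m : ZMod p) =
      eps p b * ∑ l : Fin (R p b), vv n b p l i ^ m - ((sc n b i : ℕ) : ZMod p) ^ m * hs p m := by
  by_cases h : mx n b i < p
  · exact X_good hp h7 hn hb hi h hm
  · exact X_bad hp h7 hn hb h3 hi hip (not_lt.1 h) hm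

private theorem Gram_dv {n b i j : ℕ} (p : ℕ) (hi : i < n) (hj : j < n) (hij : i ≠ j) :
    ((sc n b i : ℕ) : ZMod p) * (dv n b j i : ZMod p) =
      -(((sc n b j : ℕ) : ZMod p) * (dv n b i j : ZMod p)) := by
  have h1 := dv_mul (b := b) hi hj hij
  have h2 := dv_mul (b := b) hj hi hij.symm
  have h3 : (sc n b i : ℤ) * dv n b j i = -((sc n b j : ℤ) * dv n b i j) := by
    rw [← h1, ← h2]
    ring
  have h4 := congrArg (Int.cast : ℤ → ZMod p) h3
  push_cast at h4
  exact h4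

private theorem Gram_pp {n b : ℕ} {p i j : ℕ} (hp : p.Prime) (h7 : 7 ≤ p) (hn : n ≤ 2 * b)
    (hb : b ≤ n) (h3 : 2 * b < 3 * p) (hi : i < n) (hj : j < n) (hip : i < p) (hjp : j < p) :
    ((App n b i j : ℤ) : ZMod p) =
      eps p b * ∑ l : Fin (R p b), vv n b p l i * vv n b p l j := by
  unfold App
  split_ifs with h
  · subst h
    rw [Gram_X hp h7 hn hb h3 hi hip (by norm_num : 1 ≤ 2), (hs_even hp h7).1, mul_zero, sub_zero]
    congr 1
    exact Finset.sum_congr rfl fun l _ => pow_two _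
  · have hS : ∑ l : Fin (R p b), vv n b p l i * vv n b p l j =
        -((∑ l : Fin (R p b), vv n b p l i ^ 1) * (dv n b j i : ZMod p) +
          (∑ l : Fin (R p b), vv n b p l j ^ 1) * (dv n b i j : ZMod p)) := by
      rw [Finset.sum_mul, Finset.sum_mul, ← Finset.sum_add_distrib, ← Finset.sum_neg_distrib]
      refine Finset.sum_congr rfl fun l _ => ?_
      rw [pow_one, pow_one]
      exact star hp h7 hn hb hi hj hip hjp h l.2
    rw [hS]
    push_cast
    rw [Gram_X hp h7 hn hb h3 hi hip le_rfl, Gram_X hp h7 hn hb h3 hj hjp le_rfl]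
    have e1 := Gram_dv (b := b) p hi hj h
    linear_combination (hs p 1) * e1

private theorem Gram_pq {n b : ℕ} {c d : ℤ} {p i j : ℕ} (hbad : IsBad c d p) (hn : n ≤ 2 * b)
    (hb : b ≤ n) (h3 : 2 * b < 3 * p) (hi : i < n) (hj : j < n) (hip : i < p) (hjp : j < p) :
    ((Apq n b c d i j : ℤ) : ZMod p) =
      eps p b * ∑ l : Fin (R p b), vv n b p l i * ((d : ZMod p) * vv n b p l j ^ 2) := by
  obtain ⟨hp, h7, hc⟩ := hbad
  unfold Apq
  split_ifs with h
  · subst h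
    push_cast
    rw [Gram_X hp h7 hn hb h3 hi hip (by norm_num : 1 ≤ 3), ← hc]
    have hS : ∑ l : Fin (R p b), vv n b p l i * ((d : ZMod p) * vv n b p l i ^ 2) =
        (d : ZMod p) * ∑ l : Fin (R p b), vv n b p l i ^ 3 := by
      rw [Finset.mul_sum]
      refine Finset.sum_congr rfl fun l _ => ?_
      ring
    rw [hS]
    ring
  · have hS : ∑ l : Fin (R p b), vv n b p l i * ((d : ZMod p) * vv n b p l j ^ 2) =
        (d : ZMod p) * ((dv n b j i : ZMod p) ^ 2 * (∑ l : Fin (R p b), vv n b p l i ^ 1) +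
          (dv n b j i : ZMod p) * (dv n b i j : ZMod p) * (∑ l : Fin (R p b), vv n b p l j ^ 1) -
          (dv n b i j : ZMod p) * (∑ l : Fin (R p b), vv n b p l j ^ 2)) := by
      rw [Finset.mul_sum, Finset.mul_sum, Finset.mul_sum, ← Finset.sum_add_distrib,
        ← Finset.sum_sub_distrib, Finset.mul_sum]
      refine Finset.sum_congr rfl fun l _ => ?_
      have hs := star hp h7 hn hb hi hj hip hjp h l.2
      linear_combination ((d : ZMod p) * (vv n b p l j - (dv n b j i : ZMod p))) * hs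
    rw [hS]
    push_cast
    rw [Gram_X hp h7 hn hb h3 hi hip le_rfl, Gram_X hp h7 hn hb h3 hj hjp le_rfl,
      Gram_X hp h7 hn hb h3 hj hjp (by norm_num : 1 ≤ 2), (hs_even hp h7).1]
    have e1 := Gram_dv (b := b) p hi hj h
    linear_combination (-(d : ZMod p) * hs p 1 * (dv n b j i : ZMod p)) * e1

private theorem Gram_qq {n b : ℕ} {d : ℤ} {p i j : ℕ} (hp : p.Prime) (h7 : 7 ≤ p)
    (hn : n ≤ 2 * b) (hb : b ≤ n) (h3 : 2 * b < 3 * p) (hi : i < n) (hj : j < n) (hip : i < p)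
    (hjp : j < p) :
    ((Aqq n b d i j : ℤ) : ZMod p) =
      eps p b * ∑ l : Fin (R p b), ((d : ZMod p) * vv n b p l i ^ 2) *
        ((d : ZMod p) * vv n b p l j ^ 2) := by
  unfold Aqq
  split_ifs with h
  · subst h
    push_cast
    rw [Gram_X hp h7 hn hb h3 hi hip (by norm_num : 1 ≤ 4), (hs_even hp h7).2, mul_zero, sub_zero]
    have hS : ∑ l : Fin (R p b), ((d : ZMod p) * vv n b p l i ^ 2) *
        ((d : ZMod p) * vv n b p l i ^ 2) =
        (d : ZMod p) ^ 2 * ∑ l : Fin (R p b), vv n b p l i ^ 4 := by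
      rw [Finset.mul_sum]
      refine Finset.sum_congr rfl fun l _ => ?_
      ring
    rw [hS]
    ring
  · have hS : ∑ l : Fin (R p b), ((d : ZMod p) * vv n b p l i ^ 2) *
        ((d : ZMod p) * vv n b p l j ^ 2) =
        (d : ZMod p) ^ 2 * ((dv n b j i : ZMod p) ^ 2 * (∑ l : Fin (R p b), vv n b p l i ^ 2) +
          (dv n b i j : ZMod p) ^ 2 * (∑ l : Fin (R p b), vv n b p l j ^ 2) -
          2 * ((dv n b j i : ZMod p) * (dv n b i j : ZMod p)) *
            ((∑ l : Fin (R p b), vv n b p l i ^ 1) * (dv n b j i : ZMod p) +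
              (∑ l : Fin (R p b), vv n b p l j ^ 1) * (dv n b i j : ZMod p))) := by
      rw [Finset.sum_mul, Finset.sum_mul, ← Finset.sum_add_distrib, Finset.mul_sum, Finset.mul_sum,
        Finset.mul_sum, ← Finset.sum_add_distrib, ← Finset.sum_sub_distrib, Finset.mul_sum]
      refine Finset.sum_congr rfl fun l _ => ?_
      have hs := star hp h7 hn hb hi hj hip hjp h l.2
      linear_combination ((d : ZMod p) ^ 2 * (vv n b p l i * vv n b p l j -
        (vv n b p l i * (dv n b j i : ZMod p) + vv n b p l j * (dv n b i j : ZMod p)) +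
        2 * ((dv n b j i : ZMod p) * (dv n b i j : ZMod p)))) * hs
    rw [hS]
    push_cast
    rw [Gram_X hp h7 hn hb h3 hi hip le_rfl, Gram_X hp h7 hn hb h3 hj hjp le_rfl,
      Gram_X hp h7 hn hb h3 hi hip (by norm_num : 1 ≤ 2),
      Gram_X hp h7 hn hb h3 hj hjp (by norm_num : 1 ≤ 2), (hs_even hp h7).1]
    have e1 := Gram_dv (b := b) p hi hj h
    linear_combination (2 * (d : ZMod p) ^ 2 * hs p 1 * ((dv n b j i : ZMod p) *
      (dv n b i j : ZMod p))) * e1

theorem gram {n b : ℕ} {c d : ℤ} {p : ℕ} (hbad : IsBad c d p) (hn : n ≤ 2 * b) (hb : b ≤ n)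
    (h3 : 2 * b < 3 * p) (x y : Ix n) (hx : ix x < p) (hy : ix y < p) :
    ((A n b c d x y : ℤ) : ZMod p) = eps p b * ∑ l, V n b d p l x * V n b d p l y := by
  rcases x with i | i <;> rcases y with j | j
  · exact Gram_pp hbad.1 hbad.2.1 hn hb h3 i.2 j.2 hx hy
  · exact Gram_pq hbad hn hb h3 i.2 j.2 hx hy
  · refine (Gram_pq hbad hn hb h3 j.2 i.2 hy hx).trans ?_
    congr 1
    exact Finset.sum_congr rfl fun l _ => mul_comm _ _
  · exact Gram_qq hbad.1 hbad.2.1 hn hb h3 i.2 j.2 hx hy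

end Wols
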