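import Pool.Agent.Lib.Wols.Defs

/-!
# Half: the even harmonic sums of length `(p-1)/2` vanish modulo `p`

PROOF. For `0 < m < p - 1`: `∑_{v=1}^{p-1} v^{-m} = 0` in `ZMod p` (`FiniteField.sum_pow_lt_card_sub_one`
after `v ↦ v⁻¹`). For even `m` the map `v ↦ p - v` exchanges `1 ≤ v ≤ (p-1)/2` and
`(p+1)/2 ≤ v ≤ p - 1` and `(p - v)^{-m} = v^{-m}`; so `2 hs p m = 0`, and `2 ≠ 0` in `ZMod p`.
-/

set_option autoImplicit false

open Finset

namespace Wols

private lemma Half_all {p : ℕ} [hp : Fact p.Prime] (f : ZMod p → ZMod p) (h0 : f 0 = 0) :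
    ∑ k ∈ Icc 1 (p - 1), f (k : ZMod p) = ∑ x : ZMod p, f x := by
  have h1 : ∑ k ∈ range p, f (k : ZMod p) = ∑ x : ZMod p, f x := by
    refine Finset.sum_nbij' (fun k => (k : ZMod p)) ZMod.val ?_ ?_ ?_ ?_ ?_
    · intro k _
      exact mem_univ _
    · intro x _
      exact mem_range.2 (ZMod.val_lt x)
    · intro k hk
      exact ZMod.val_cast_of_lt (mem_range.1 hk)
    · intro x _
      exact ZMod.natCast_zmod_val x
    · intro k _
      rfl
  rw [← h1]
  have hp0 := hp.out.pos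
  apply Finset.sum_subset
  · intro k hk
    rw [mem_Icc] at hk
    rw [mem_range]
    omega
  · intro k hk hk2
    rw [mem_range] at hk
    rw [mem_Icc] at hk2
    have : k = 0 := by omega
    rw [this, Nat.cast_zero, h0]

private lemma Half_pow {p : ℕ} [hp : Fact p.Prime] {i : ℕ} (h0 : 0 < i) (hi : i < p - 1) :
    ∑ k ∈ Icc 1 (p - 1), ((k : ZMod p))⁻¹ ^ i = 0 := by
  rw [Half_all (fun x => x⁻¹ ^ i) (by simp [h0.ne'])]
  have h1 : ∑ x : ZMod p, x⁻¹ ^ i = ∑ x : ZMod p, x ^ i := by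
    refine Finset.sum_nbij' (fun x => x⁻¹) (fun x => x⁻¹) ?_ ?_ ?_ ?_ ?_
    · intro k _
      exact mem_univ _
    · intro k _
      exact mem_univ _
    · intro k _
      exact inv_inv k
    · intro k _
      exact inv_inv k
    · intro k _
      rfl
  rw [h1]
  apply FiniteField.sum_pow_lt_card_sub_one
  rwa [ZMod.card]

private lemma Half_even {p : ℕ} [hp : Fact p.Prime] (h3 : 3 ≤ p) {m : ℕ} (h0 : 0 < m)
    (hm : m < p - 1) (he : Even m) :
    ∑ v ∈ Icc 1 ((p - 1) / 2), ((v : ZMod p)⁻¹) ^ m = 0 := by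
  have hodd : p % 2 = 1 := by
    rcases hp.out.eq_two_or_odd with h2 | h2
    · omega
    · exact h2
  have h1 := Half_pow (p := p) h0 hm
  have h2 : Icc 1 (p - 1) = Icc 1 ((p - 1) / 2) ∪ Icc ((p - 1) / 2 + 1) (p - 1) := by
    ext v
    simp only [mem_union, mem_Icc]
    omega
  have hd : Disjoint (Icc 1 ((p - 1) / 2)) (Icc ((p - 1) / 2 + 1) (p - 1)) := by
    rw [Finset.disjoint_left]
    intro v hv hv'
    rw [mem_Icc] at hv hv'
    omega
  rw [h2, sum_union hd] at h1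
  have h4 : ∑ v ∈ Icc ((p - 1) / 2 + 1) (p - 1), ((v : ZMod p)⁻¹) ^ m =
      ∑ v ∈ Icc 1 ((p - 1) / 2), ((v : ZMod p)⁻¹) ^ m := by
    refine Finset.sum_nbij' (fun v => p - v) (fun v => p - v) ?_ ?_ ?_ ?_ ?_
    · intro v hv
      rw [mem_Icc] at hv ⊢
      omega
    · intro v hv
      rw [mem_Icc] at hv ⊢
      omega
    · intro v hv
      rw [mem_Icc] at hv
      omega
    · intro v hv
      rw [mem_Icc] at hv
      omega
    · intro v hv
      rw [mem_Icc] at hv
      have h5 : ((p - v : ℕ) : ZMod p) = -(v : ZMod p) := by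
        rw [Nat.cast_sub (by omega), ZMod.natCast_self, zero_sub]
      rw [h5, inv_neg, he.neg_pow]
  rw [h4] at h1
  have h6 : (2 : ZMod p) * ∑ v ∈ Icc 1 ((p - 1) / 2), ((v : ZMod p)⁻¹) ^ m = 0 := by
    rw [two_mul]
    exact h1
  rcases mul_eq_zero.1 h6 with h7 | h7
  · exfalso
    have h8 : ((2 : ℕ) : ZMod p) = 0 := by exact_mod_cast h7
    rw [ZMod.natCast_eq_zero_iff] at h8
    have := Nat.le_of_dvd (by norm_num) h8
    omega
  · exact h7

theorem hs_even {p : ℕ} (hp : p.Prime) (h7 : 7 ≤ p) : hs p 2 = 0 ∧ hs p 4 = 0 := by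
  haveI : Fact p.Prime := ⟨hp⟩
  exact ⟨Half_even (by omega) (by omega) (by omega) (by decide),
    Half_even (by omega) (by omega) (by omega) (by decide)⟩

end Wols
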