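import Pool.Agent.Lib.Wols.Defs

/-!
# Scale: the scales `s_i` modulo `p`

PROOF. `s_i = lcm(1, ..., mx n b i)` (`Nat.lcmUpto`; look for `Nat.dvd_lcmUpto`-like lemmas and
`Nat.lcmUpto_dvd_factorial`, or `simp [Nat.lcmUpto]`; see `Lib/Wief/NonV.lean`, `sc_ne`, for the use of
`Nat.lcmUpto_dvd_factorial` and `Nat.Prime.dvd_factorial`). `div_good`: `t * (s/t) = s` and `t ≠ 0` mod `p`
because `1 ≤ t ≤ mx < p`. `div_bad`: `p ∣ s = t (s/t)` and `p ∤ t`. `dv_good`, `dv_bad`: `|j - i| ≤ mx n b i`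
(`j - i ≤ n - 1 - i` or `i - j ≤ i`), `|j - i| ≥ 1`, so `(j - i) ∣ s_i` in `ℤ` and
`dv n b i j * (j - i) = s_i` (`dv_mul`); in `dv_bad` `0 < |j - i| < p` because `i, j < p`.
-/

set_option autoImplicit false

open Finset

namespace Wols

private lemma Scale_cast_ne {p t : ℕ} (h0 : 1 ≤ t) (ht : t < p) : ((t : ℕ) : ZMod p) ≠ 0 := by
  intro h
  rw [ZMod.natCast_eq_zero_iff] at h
  exact absurd (Nat.le_of_dvd h0 h) (by omega)

theorem sc_pos (n b i : ℕ) : 0 < sc n b i := Nat.lcmUpto_pos _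

theorem dvd_sc {n b i t : ℕ} (h0 : 1 ≤ t) (h : t ≤ mx n b i) : t ∣ sc n b i := by
  unfold sc Nat.lcmUpto
  exact Finset.dvd_lcm (f := id) (Finset.mem_Icc.mpr ⟨h0, h⟩)

theorem sc_ne {n b i p : ℕ} (hp : p.Prime) (h : mx n b i < p) : ((sc n b i : ℕ) : ZMod p) ≠ 0 := by
  intro hz
  rw [ZMod.natCast_eq_zero_iff] at hz
  have h1 : p ∣ (mx n b i).factorial := hz.trans (Nat.lcmUpto_dvd_factorial _)
  rw [hp.dvd_factorial] at h1
  omega

theorem sc_zero {n b i p : ℕ} (hp : p.Prime) (h : p ≤ mx n b i) : ((sc n b i : ℕ) : ZMod p) = 0 := by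
  rw [ZMod.natCast_eq_zero_iff]
  exact dvd_sc hp.one_lt.le h

theorem div_good {n b i p t : ℕ} (hp : p.Prime) (h : mx n b i < p) (h0 : 1 ≤ t)
    (ht : t ≤ mx n b i) :
    ((sc n b i / t : ℕ) : ZMod p) = ((sc n b i : ℕ) : ZMod p) * (t : ZMod p)⁻¹ := by
  have : Fact p.Prime := ⟨hp⟩
  have hne : ((t : ℕ) : ZMod p) ≠ 0 := Scale_cast_ne h0 (lt_of_le_of_lt ht h)
  have h1 : sc n b i / t * t = sc n b i := Nat.div_mul_cancel (dvd_sc h0 ht)
  have h2 : ((sc n b i / t : ℕ) : ZMod p) * (t : ZMod p) = ((sc n b i : ℕ) : ZMod p) := by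
    rw [← Nat.cast_mul, h1]
  rw [← h2, mul_assoc, mul_inv_cancel₀ hne, mul_one]

theorem div_bad {n b i p t : ℕ} (hp : p.Prime) (h : p ≤ mx n b i) (h0 : 1 ≤ t)
    (ht : t ≤ mx n b i) (hpt : ¬ p ∣ t) : ((sc n b i / t : ℕ) : ZMod p) = 0 := by
  rw [ZMod.natCast_eq_zero_iff]
  have h1 : sc n b i / t * t = sc n b i := Nat.div_mul_cancel (dvd_sc h0 ht)
  have h2 : p ∣ sc n b i / t * t := by
    rw [h1]
    exact dvd_sc hp.one_lt.le h
  exact (hp.dvd_mul.mp h2).resolve_right hpt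

private lemma Scale_dvd {n b i j : ℕ} (hi : i < n) (hj : j < n) (hij : i ≠ j) :
    ((j : ℤ) - i) ∣ (sc n b i : ℤ) := by
  have h1 : ((j : ℤ) - i).natAbs ∣ sc n b i := by
    apply dvd_sc
    · omega
    · unfold mx
      have : ((j : ℤ) - i).natAbs ≤ max i (n - 1 - i) := by omega
      exact this.trans (le_max_left _ _)
  exact Int.natAbs_dvd.mp (by exact_mod_cast h1)

theorem dv_mul {n b i j : ℕ} (hi : i < n) (hj : j < n) (hij : i ≠ j) :
    dv n b i j * ((j : ℤ) - i) = sc n b i := by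
  unfold dv
  exact Int.ediv_mul_cancel (Scale_dvd hi hj hij)

private lemma Scale_natAbs_le {n i j : ℕ} (b : ℕ) (hi : i < n) (hj : j < n) :
    ((j : ℤ) - i).natAbs ≤ mx n b i := by
  unfold mx
  have : ((j : ℤ) - i).natAbs ≤ max i (n - 1 - i) := by omega
  exact this.trans (le_max_left _ _)

private lemma Scale_sub_ne {p i j : ℕ} (hij : i ≠ j) (h : ((j : ℤ) - i).natAbs < p) :
    ((j : ℕ) : ZMod p) - ((i : ℕ) : ZMod p) ≠ 0 := by
  intro hz
  have h1 : (((j : ℤ) - i : ℤ) : ZMod p) = 0 := by push_cast; exact hz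
  rw [ZMod.intCast_zmod_eq_zero_iff_dvd] at h1
  have h2 : p ∣ ((j : ℤ) - i).natAbs := Int.natCast_dvd.mp h1
  have h3 := Nat.le_of_dvd (by omega) h2
  omega

theorem dv_good {n b i j p : ℕ} (hp : p.Prime) (h : mx n b i < p) (hi : i < n) (hj : j < n)
    (hij : i ≠ j) :
    (dv n b i j : ZMod p) = ((sc n b i : ℕ) : ZMod p) * (((j : ℕ) : ZMod p) - ((i : ℕ) : ZMod p))⁻¹ ∧
      ((j : ℕ) : ZMod p) - ((i : ℕ) : ZMod p) ≠ 0 := by
  have : Fact p.Prime := ⟨hp⟩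
  have hne : ((j : ℕ) : ZMod p) - ((i : ℕ) : ZMod p) ≠ 0 :=
    Scale_sub_ne hij (lt_of_le_of_lt (Scale_natAbs_le b hi hj) h)
  refine ⟨?_, hne⟩
  have h1 := congrArg (fun z : ℤ => (z : ZMod p)) (dv_mul (b := b) hi hj hij)
  simp only [Int.cast_mul, Int.cast_sub, Int.cast_natCast] at h1
  rw [← h1, mul_assoc, mul_inv_cancel₀ hne, mul_one]

theorem dv_bad {n b i j p : ℕ} (hp : p.Prime) (h : p ≤ mx n b i) (hi : i < n) (hj : j < n)
    (hip : i < p) (hjp : j < p) (hij : i ≠ j) : (dv n b i j : ZMod p) = 0 := by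
  have : Fact p.Prime := ⟨hp⟩
  have hne : ((j : ℕ) : ZMod p) - ((i : ℕ) : ZMod p) ≠ 0 := Scale_sub_ne hij (by omega)
  have h1 := congrArg (fun z : ℤ => (z : ZMod p)) (dv_mul (b := b) hi hj hij)
  simp only [Int.cast_mul, Int.cast_sub, Int.cast_natCast] at h1
  rw [sc_zero hp h] at h1
  exact (mul_eq_zero.mp h1).resolve_right hne

end Wols
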