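import Pool.Agent.Lib.Wols.Defs

/-!
# Size: the size of the entries of `A` and of its determinant

PROOF. `xz_le`: at most `(i - b) + (b - i) + i ≤ n + n` terms (`i < n`, `b ≤ n`; note that one of `i - b`,
`b - i` is `0`), each of absolute value `≤ (2 s_i)^m ≤ 16 s_i^m`, `m ≤ 4` (`s_i / t ≤ s_i`).
`|dv n b i j| ≤ s_i` (`Int.abs_ediv_le_abs` or similar). `A_le`, `k := |c| + |d| + 1`: simple x simple `≤ 64 n s_i s_j`; simple x
double `≤ |d| 96 n s_i s_j^2`, diagonal `≤ (32 n |d| + |c|) s_i^3`; double x double `≤ 192 n d^2 s_i^2 s_j^2`.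
`det_le`: Leibniz formula (`Matrix.det_apply`), `(2n)!` permutations, each product is at most
`∏_x (200 k^2 n) S_x S_(σ x) = (200 k^2 n)^(2n) (∏ S)^2` (see `det_le` in `Lib/Wief/SzA.lean`).
-/

set_option autoImplicit false

open Finset

namespace Wols

private lemma Size_q {s q m : ℕ} (hq : q ≤ s) (hm : m ≤ 4) :
    (2 * (q : ℤ)) ^ m ≤ 16 * (s : ℤ) ^ m := by
  have hq' : (q : ℤ) ≤ (s : ℤ) := by exact_mod_cast hq
  have h1 : (2 * (q : ℤ)) ^ m ≤ (2 * (s : ℤ)) ^ m :=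
    pow_le_pow_left₀ (by positivity) (by linarith) m
  have h2 : (2 : ℤ) ^ m ≤ 16 := by
    calc (2 : ℤ) ^ m ≤ 2 ^ 4 := pow_le_pow_right₀ (by norm_num) hm
      _ = 16 := by norm_num
  refine h1.trans ?_
  rw [mul_pow]
  exact mul_le_mul_of_nonneg_right h2 (by positivity)

private lemma Size_sum {ι : Type*} (S : Finset ι) (f : ι → ℤ) (N : ℕ) (B : ℤ) (hB : 0 ≤ B)
    (hc : S.card ≤ N) (h : ∀ x ∈ S, |f x| ≤ B) : |∑ x ∈ S, f x| ≤ (N : ℤ) * B := by
  refine (Finset.abs_sum_le_sum_abs _ _).trans ?_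
  refine (Finset.sum_le_sum h).trans ?_
  rw [Finset.sum_const, nsmul_eq_mul]
  exact mul_le_mul_of_nonneg_right (by exact_mod_cast hc) hB

theorem xz_le {n b i m : ℕ} (hi : i < n) (hb : b ≤ n) (hm : m ≤ 4) :
    |xz n b i m| ≤ 32 * (n : ℤ) * (sc n b i : ℤ) ^ m := by
  unfold xz
  have hB : (0 : ℤ) ≤ 16 * (sc n b i : ℤ) ^ m := by positivity
  have h1 : |∑ s ∈ range (i - b), (2 * ((sc n b i / (2 * s + 1) : ℕ) : ℤ)) ^ m| ≤
      ((i - b : ℕ) : ℤ) * (16 * (sc n b i : ℤ) ^ m) := by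
    refine Size_sum _ _ _ _ hB (by simp) fun s _ => ?_
    rw [abs_of_nonneg (by positivity)]
    exact Size_q (Nat.div_le_self _ _) hm
  have h2 : |∑ s ∈ range (b - i), (-(2 * ((sc n b i / (2 * s + 1) : ℕ) : ℤ))) ^ m| ≤
      ((b - i : ℕ) : ℤ) * (16 * (sc n b i : ℤ) ^ m) := by
    refine Size_sum _ _ _ _ hB (by simp) fun s _ => ?_
    rw [abs_pow, abs_neg, ← abs_pow, abs_of_nonneg (by positivity)]
    exact Size_q (Nat.div_le_self _ _) hm
  have h3 : |∑ t ∈ Icc 1 i, ((sc n b i / t : ℕ) : ℤ) ^ m| ≤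
      (i : ℤ) * (16 * (sc n b i : ℤ) ^ m) := by
    refine Size_sum _ _ _ _ hB (by simp) fun t _ => ?_
    rw [abs_of_nonneg (by positivity)]
    have hq : ((sc n b i / t : ℕ) : ℤ) ≤ (sc n b i : ℤ) := by exact_mod_cast Nat.div_le_self _ _
    have : ((sc n b i / t : ℕ) : ℤ) ^ m ≤ (sc n b i : ℤ) ^ m := pow_le_pow_left₀ (by positivity) hq m
    have h0 : (0 : ℤ) ≤ (sc n b i : ℤ) ^ m := by positivity
    linarith
  have h4 : ((i - b : ℕ) : ℤ) + ((b - i : ℕ) : ℤ) + (i : ℤ) ≤ 2 * (n : ℤ) := by omega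
  refine (abs_sub _ _).trans ?_
  refine (add_le_add (abs_sub _ _) le_rfl).trans ?_
  calc _ ≤ ((i - b : ℕ) : ℤ) * (16 * (sc n b i : ℤ) ^ m) +
        ((b - i : ℕ) : ℤ) * (16 * (sc n b i : ℤ) ^ m) + (i : ℤ) * (16 * (sc n b i : ℤ) ^ m) :=
          add_le_add (add_le_add h1 h2) h3
    _ = (((i - b : ℕ) : ℤ) + ((b - i : ℕ) : ℤ) + (i : ℤ)) * (16 * (sc n b i : ℤ) ^ m) := by ring
    _ ≤ 2 * (n : ℤ) * (16 * (sc n b i : ℤ) ^ m) := mul_le_mul_of_nonneg_right h4 hB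
    _ = 32 * (n : ℤ) * (sc n b i : ℤ) ^ m := by ring

private lemma Size_dv (n b i j : ℕ) : |dv n b i j| ≤ (sc n b i : ℤ) := by
  unfold dv
  refine (Int.abs_ediv_le_abs _ _).trans ?_
  rw [abs_of_nonneg (by positivity)]

private lemma Size_c (n : ℕ) (c d : ℤ) :
    64 * (n : ℤ) ≤ 200 * (|c| + |d| + 1) ^ 2 * n ∧
    96 * (n : ℤ) * |d| ≤ 200 * (|c| + |d| + 1) ^ 2 * n ∧
    32 * (n : ℤ) * |d| + (n : ℤ) * |c| ≤ 200 * (|c| + |d| + 1) ^ 2 * n ∧
    192 * (n : ℤ) * d ^ 2 ≤ 200 * (|c| + |d| + 1) ^ 2 * n := by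
  have hc := abs_nonneg c
  have hd := abs_nonneg d
  have hn : (0 : ℤ) ≤ (n : ℤ) := by positivity
  have e : d ^ 2 = |d| ^ 2 := (sq_abs d).symm
  rw [e]
  generalize |c| = u at *
  generalize |d| = v at *
  have k1 : (64 : ℤ) ≤ 200 * (u + v + 1) ^ 2 := by nlinarith [mul_nonneg hc hd]
  have k2 : 96 * v ≤ 200 * (u + v + 1) ^ 2 := by nlinarith [mul_nonneg hc hd]
  have k3 : 32 * v + u ≤ 200 * (u + v + 1) ^ 2 := by nlinarith [mul_nonneg hc hd]
  have k4 : 192 * v ^ 2 ≤ 200 * (u + v + 1) ^ 2 := by nlinarith [mul_nonneg hc hd]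
  refine ⟨?_, ?_, ?_, ?_⟩
  · exact mul_le_mul_of_nonneg_right k1 hn
  · calc 96 * (n : ℤ) * v = 96 * v * n := by ring
      _ ≤ _ := mul_le_mul_of_nonneg_right k2 hn
  · calc 32 * (n : ℤ) * v + (n : ℤ) * u = (32 * v + u) * n := by ring
      _ ≤ _ := mul_le_mul_of_nonneg_right k3 hn
  · calc 192 * (n : ℤ) * v ^ 2 = 192 * v ^ 2 * n := by ring
      _ ≤ _ := mul_le_mul_of_nonneg_right k4 hn

private lemma Size_pp {n b i j : ℕ} (c d : ℤ) (hb : b ≤ n) (hi : i < n) (hj : j < n) :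
    |App n b i j| ≤ 200 * (|c| + |d| + 1) ^ 2 * n * ((sc n b i : ℤ) * (sc n b j : ℤ)) := by
  obtain ⟨c1, -, -, -⟩ := Size_c n c d
  have hp : (0 : ℤ) ≤ (sc n b i : ℤ) * (sc n b j : ℤ) := by positivity
  have hn : (0 : ℤ) ≤ (n : ℤ) := by positivity
  refine le_trans ?_ (mul_le_mul_of_nonneg_right c1 hp)
  unfold App
  split_ifs with h
  · subst h
    refine (xz_le hi hb (by norm_num)).trans ?_
    nlinarith [mul_nonneg hn hp]
  · rw [abs_neg]
    refine (abs_add_le _ _).trans ?_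
    rw [abs_mul, abs_mul]
    have f1 : |xz n b i 1| * |dv n b j i| ≤ 32 * (n : ℤ) * (sc n b i : ℤ) ^ 1 * (sc n b j : ℤ) :=
      mul_le_mul (xz_le hi hb (by norm_num)) (Size_dv _ _ _ _) (abs_nonneg _) (by positivity)
    have f2 : |xz n b j 1| * |dv n b i j| ≤ 32 * (n : ℤ) * (sc n b j : ℤ) ^ 1 * (sc n b i : ℤ) :=
      mul_le_mul (xz_le hj hb (by norm_num)) (Size_dv _ _ _ _) (abs_nonneg _) (by positivity)
    refine (add_le_add f1 f2).trans (le_of_eq ?_)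
    ring

private lemma Size_pq {n b i j : ℕ} (c d : ℤ) (hb : b ≤ n) (hi : i < n) (hj : j < n) :
    |Apq n b c d i j| ≤
      200 * (|c| + |d| + 1) ^ 2 * n * ((sc n b i : ℤ) * (sc n b j : ℤ) ^ 2) := by
  obtain ⟨-, c2, c3, -⟩ := Size_c n c d
  have hn1 : (1 : ℤ) ≤ (n : ℤ) := by omega
  have hn : (0 : ℤ) ≤ (n : ℤ) := by positivity
  have hp : (0 : ℤ) ≤ (sc n b i : ℤ) * (sc n b j : ℤ) ^ 2 := by positivity
  unfold Apq
  split_ifs with h
  · subst h
    refine le_trans ?_ (mul_le_mul_of_nonneg_right c3 hp)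
    refine (abs_add_le _ _).trans ?_
    rw [abs_mul, abs_mul]
    have hs3 : (0 : ℤ) ≤ (sc n b i : ℤ) ^ 3 := by positivity
    have f1 : |d| * |xz n b i 3| ≤ |d| * (32 * (n : ℤ) * (sc n b i : ℤ) ^ 3) :=
      mul_le_mul_of_nonneg_left (xz_le hi hb (by norm_num)) (abs_nonneg _)
    have f2 : |c| * |(sc n b i : ℤ) ^ 3| ≤ (n : ℤ) * |c| * (sc n b i : ℤ) ^ 3 := by
      rw [abs_of_nonneg hs3]
      refine mul_le_mul_of_nonneg_right ?_ hs3
      nlinarith [abs_nonneg c]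
    refine (add_le_add f1 f2).trans (le_of_eq ?_)
    ring
  · refine le_trans ?_ (mul_le_mul_of_nonneg_right c2 hp)
    rw [abs_mul]
    have hi1 := xz_le (n := n) (b := b) (m := 1) hi hb (by norm_num)
    have hj1 := xz_le (n := n) (b := b) (m := 1) hj hb (by norm_num)
    have hj2 := xz_le (n := n) (b := b) (m := 2) hj hb (by norm_num)
    have hdi := Size_dv n b i j
    have hdj := Size_dv n b j i
    have g1 : |dv n b j i ^ 2 * xz n b i 1| ≤
        (sc n b j : ℤ) ^ 2 * (32 * (n : ℤ) * (sc n b i : ℤ) ^ 1) := by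
      rw [abs_mul, abs_pow]
      exact mul_le_mul (pow_le_pow_left₀ (abs_nonneg _) hdj 2) hi1 (abs_nonneg _) (by positivity)
    have g2 : |dv n b j i * dv n b i j * xz n b j 1| ≤
        (sc n b j : ℤ) * (sc n b i : ℤ) * (32 * (n : ℤ) * (sc n b j : ℤ) ^ 1) := by
      rw [abs_mul, abs_mul]
      exact mul_le_mul (mul_le_mul hdj hdi (abs_nonneg _) (by positivity)) hj1 (abs_nonneg _)
        (by positivity)
    have g3 : |dv n b i j * xz n b j 2| ≤
        (sc n b i : ℤ) * (32 * (n : ℤ) * (sc n b j : ℤ) ^ 2) := by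
      rw [abs_mul]
      exact mul_le_mul hdi hj2 (abs_nonneg _) (by positivity)
    have g : |dv n b j i ^ 2 * xz n b i 1 + dv n b j i * dv n b i j * xz n b j 1 -
        dv n b i j * xz n b j 2| ≤ 96 * (n : ℤ) * ((sc n b i : ℤ) * (sc n b j : ℤ) ^ 2) := by
      refine (abs_sub _ _).trans ?_
      refine (add_le_add (abs_add_le _ _) le_rfl).trans ?_
      refine (add_le_add (add_le_add g1 g2) g3).trans (le_of_eq ?_)
      ring
    refine (mul_le_mul_of_nonneg_left g (abs_nonneg d)).trans (le_of_eq ?_)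
    ring

private lemma Size_qq {n b i j : ℕ} (c d : ℤ) (hb : b ≤ n) (hi : i < n) (hj : j < n) :
    |Aqq n b d i j| ≤
      200 * (|c| + |d| + 1) ^ 2 * n * ((sc n b i : ℤ) ^ 2 * (sc n b j : ℤ) ^ 2) := by
  obtain ⟨-, -, -, c4⟩ := Size_c n c d
  have hn : (0 : ℤ) ≤ (n : ℤ) := by positivity
  have hp : (0 : ℤ) ≤ (sc n b i : ℤ) ^ 2 * (sc n b j : ℤ) ^ 2 := by positivity
  refine le_trans ?_ (mul_le_mul_of_nonneg_right c4 hp)
  have hd2 : (0 : ℤ) ≤ d ^ 2 := sq_nonneg d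
  unfold Aqq
  split_ifs with h
  · subst h
    rw [abs_mul, abs_of_nonneg hd2]
    refine (mul_le_mul_of_nonneg_left (xz_le hi hb (by norm_num)) hd2).trans ?_
    have h0 : (0 : ℤ) ≤ d ^ 2 * (n : ℤ) * (sc n b i : ℤ) ^ 4 := by positivity
    nlinarith [h0]
  · rw [abs_mul, abs_of_nonneg hd2]
    have hi1 := xz_le (n := n) (b := b) (m := 1) hi hb (by norm_num)
    have hj1 := xz_le (n := n) (b := b) (m := 1) hj hb (by norm_num)
    have hi2 := xz_le (n := n) (b := b) (m := 2) hi hb (by norm_num)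
    have hj2 := xz_le (n := n) (b := b) (m := 2) hj hb (by norm_num)
    have hdi := Size_dv n b i j
    have hdj := Size_dv n b j i
    have g1 : |dv n b j i ^ 2 * xz n b i 2| ≤
        (sc n b j : ℤ) ^ 2 * (32 * (n : ℤ) * (sc n b i : ℤ) ^ 2) := by
      rw [abs_mul, abs_pow]
      exact mul_le_mul (pow_le_pow_left₀ (abs_nonneg _) hdj 2) hi2 (abs_nonneg _) (by positivity)
    have g2 : |dv n b i j ^ 2 * xz n b j 2| ≤
        (sc n b i : ℤ) ^ 2 * (32 * (n : ℤ) * (sc n b j : ℤ) ^ 2) := by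
      rw [abs_mul, abs_pow]
      exact mul_le_mul (pow_le_pow_left₀ (abs_nonneg _) hdi 2) hj2 (abs_nonneg _) (by positivity)
    have g3 : |2 * (dv n b j i * dv n b i j)| ≤ 2 * ((sc n b j : ℤ) * (sc n b i : ℤ)) := by
      rw [abs_mul, abs_mul, abs_two]
      exact mul_le_mul_of_nonneg_left (mul_le_mul hdj hdi (abs_nonneg _) (by positivity))
        (by norm_num)
    have g4 : |xz n b i 1 * dv n b j i + xz n b j 1 * dv n b i j| ≤
        32 * (n : ℤ) * (sc n b i : ℤ) ^ 1 * (sc n b j : ℤ) +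
          32 * (n : ℤ) * (sc n b j : ℤ) ^ 1 * (sc n b i : ℤ) := by
      refine (abs_add_le _ _).trans ?_
      rw [abs_mul, abs_mul]
      exact add_le_add (mul_le_mul hi1 hdj (abs_nonneg _) (by positivity))
        (mul_le_mul hj1 hdi (abs_nonneg _) (by positivity))
    have g5 : |2 * (dv n b j i * dv n b i j) *
        (xz n b i 1 * dv n b j i + xz n b j 1 * dv n b i j)| ≤
        2 * ((sc n b j : ℤ) * (sc n b i : ℤ)) * (32 * (n : ℤ) * (sc n b i : ℤ) ^ 1 * (sc n b j : ℤ) +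
          32 * (n : ℤ) * (sc n b j : ℤ) ^ 1 * (sc n b i : ℤ)) := by
      rw [abs_mul]
      exact mul_le_mul g3 g4 (abs_nonneg _) (by positivity)
    have g : |dv n b j i ^ 2 * xz n b i 2 + dv n b i j ^ 2 * xz n b j 2 -
        2 * (dv n b j i * dv n b i j) * (xz n b i 1 * dv n b j i + xz n b j 1 * dv n b i j)| ≤
        192 * (n : ℤ) * ((sc n b i : ℤ) ^ 2 * (sc n b j : ℤ) ^ 2) := by
      refine (abs_sub _ _).trans ?_
      refine (add_le_add (abs_add_le _ _) le_rfl).trans ?_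
      refine (add_le_add (add_le_add g1 g2) g5).trans (le_of_eq ?_)
      ring
    refine (mul_le_mul_of_nonneg_left g hd2).trans (le_of_eq ?_)
    ring

theorem A_le {n b : ℕ} (c d : ℤ) (hb : b ≤ n) (x y : Ix n) :
    |A n b c d x y| ≤ 200 * (|c| + |d| + 1) ^ 2 * n * ((Sz n b x : ℤ) * (Sz n b y : ℤ)) := by
  have e1 : ∀ i : Fin n, ((Sz n b (Sum.inl i) : ℕ) : ℤ) = (sc n b i : ℤ) := fun i => rfl
  have e2 : ∀ i : Fin n, ((Sz n b (Sum.inr i) : ℕ) : ℤ) = (sc n b i : ℤ) ^ 2 := fun i => by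
    unfold Sz
    push_cast [Sum.elim_inr]
    rfl
  rcases x with i | i <;> rcases y with j | j
  · rw [e1, e1]
    exact Size_pp c d hb i.2 j.2
  · rw [e1, e2]
    exact Size_pq c d hb i.2 j.2
  · rw [e1, e2, mul_comm ((sc n b i : ℤ) ^ 2)]
    exact Size_pq c d hb j.2 i.2
  · rw [e2, e2]
    exact Size_qq c d hb i.2 j.2

theorem det_le {n b : ℕ} (c d : ℤ) (hb : b ≤ n) :
    |(A n b c d).det| ≤ ((2 * n).factorial : ℤ) * (200 * (|c| + |d| + 1) ^ 2 * n) ^ (2 * n) *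
      (∏ x : Ix n, (Sz n b x : ℤ)) ^ 2 := by
  classical
  rw [Matrix.det_apply]
  refine (Finset.abs_sum_le_sum_abs _ _).trans ?_
  have hcard : Fintype.card (Ix n) = 2 * n := by simp [Ix, two_mul]
  have h1 : ∀ σ : Equiv.Perm (Ix n), |Equiv.Perm.sign σ • ∏ i, A n b c d (σ i) i| ≤
      (200 * (|c| + |d| + 1) ^ 2 * n) ^ (2 * n) * (∏ x : Ix n, (Sz n b x : ℤ)) ^ 2 := by
    intro σ
    have h2 : |Equiv.Perm.sign σ • ∏ i, A n b c d (σ i) i| = ∏ i, |A n b c d (σ i) i| := by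
      rw [← Finset.abs_prod]
      rcases Int.units_eq_one_or (Equiv.Perm.sign σ) with h | h <;> rw [h] <;> simp
    rw [h2]
    calc ∏ i, |A n b c d (σ i) i|
        ≤ ∏ i, (200 * (|c| + |d| + 1) ^ 2 * (n : ℤ) * ((Sz n b (σ i) : ℤ) * Sz n b i)) :=
          Finset.prod_le_prod (fun i _ => abs_nonneg _) (fun i _ => A_le c d hb (σ i) i)
      _ = (200 * (|c| + |d| + 1) ^ 2 * n) ^ (2 * n) * (∏ x : Ix n, (Sz n b x : ℤ)) ^ 2 := by
          rw [Finset.prod_mul_distrib (f := fun _ => 200 * (|c| + |d| + 1) ^ 2 * (n : ℤ))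
            (g := fun i => (Sz n b (σ i) : ℤ) * Sz n b i), Finset.prod_const,
            Finset.card_univ, hcard, Finset.prod_mul_distrib,
            Equiv.prod_comp σ (fun a => (Sz n b a : ℤ))]
          ring
  refine (Finset.sum_le_sum fun σ _ => h1 σ).trans (le_of_eq ?_)
  rw [Finset.sum_const, Finset.card_univ, Fintype.card_perm, hcard, nsmul_eq_mul]
  ring

end Wols
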